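import Pool.Agent.Helper85.REC.Stmts14

/-!
ATC: rank two (row of part 14 of the REC project, MP_78e9a5; after SML of helper89).
[helper25]
-/

set_option autoImplicit false

open scoped Classical
open NumberField

namespace REC

open MU

theorem st_ATC (CRG : ST_CRG) (IRB : ST_IRB) (FDC : ST_FDC) (NF2 : ST_NF2) (CMT : ST_CMT) :
    ST_ATC := by
  intro F _ _ S hS w h M hinj hflc hss
  rcases CRG F S hS w h M hinj hss with hirr | hC
  · right
    have h01 : h 0 ≠ h 1 := fun h' => by simpa using hinj h'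
    obtain ⟨-, c₁, hc₁⟩ := IRB F S hS w h M h01 hirr
    obtain ⟨c₂, hc₂⟩ := FDC F S hS w h M hflc
    obtain ⟨c₃, hc₃⟩ := NF2 F S hS w h M hinj hirr
    refine ⟨hirr, max c₁ (max c₂ c₃), ?_⟩
    intro l _ hl
    have hl1 : c₁ < l := lt_of_le_of_lt (le_max_left _ _) hl
    have hl2 : c₂ < l := lt_of_le_of_lt (le_trans (le_max_left _ _) (le_max_right _ _)) hl
    have hl3 : c₃ < l := lt_of_le_of_lt (le_trans (le_max_right _ _) (le_max_right _ _)) hl
    refine ⟨hc₁ l hl1, ?_⟩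
    intro u hu
    by_contra hne
    push Not at hne
    obtain ⟨B, A, hBA⟩ := (CMT (Gal F) l (AlgebraicClosure (ZMod l))
      (algebraMap (ZMod l) (AlgebraicClosure (ZMod l)))).1 (res (M.ρ l)) u (hc₁ l hl1) hu hne
    exact hc₃ l hl3 (hc₂ l hl2 _ _ B A hBA)
  · left
    obtain ⟨-, -, hcomm, -⟩ := hC
    exact ⟨hss, ⊤, isOpen_univ, fun l _ g _ g' _ => hcomm l g g'⟩

end REC
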