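import Pool.Agent.Helper85.REC.Stmts10
import Pool.Agent.Helper17.REC.IRB

/-!
Row CRG: reducible completely reducible motives of rank two.
-/

set_option autoImplicit false

open scoped Classical
open NumberField Polynomial

namespace REC

open MU

/-- powers of two by two matrices, with universal coefficients -/
theorem crg_pow (N : ℕ) : ∃ U V : MvPolynomial ℕ ℤ, ∀ (R : Type) [CommRing R] [Nontrivial R]
    (A : Matrix (Fin 2) (Fin 2) R),
    A ^ N = (MvPolynomial.aeval (fun i => A.charpoly.coeff i) U) • A +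
      (MvPolynomial.aeval (fun i => A.charpoly.coeff i) V) • (1 : Matrix (Fin 2) (Fin 2) R) := by
  induction N with
  | zero =>
    refine ⟨0, 1, fun R _ _ A => ?_⟩
    rw [map_zero, map_one, zero_smul, one_smul, zero_add, pow_zero]
  | succ N ih =>
    obtain ⟨U, V, h1⟩ := ih
    refine ⟨-(U * MvPolynomial.X 1) + V, -(U * MvPolynomial.X 0), fun R _ _ A => ?_⟩
    have h2 := h1 R A
    obtain ⟨hc1, hc0⟩ := irb_coeff A
    rw [map_add, map_neg, map_neg, map_mul, map_mul, MvPolynomial.aeval_X, MvPolynomial.aeval_X,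
      hc1, hc0, pow_succ, h2]
    generalize (MvPolynomial.aeval (fun i => A.charpoly.coeff i)) U = a
    generalize (MvPolynomial.aeval (fun i => A.charpoly.coeff i)) V = b
    rw [Matrix.trace_fin_two, Matrix.det_fin_two]
    ext i j
    fin_cases i <;> fin_cases j <;>
    simp [Matrix.mul_apply, Fin.sum_univ_two] <;> ring

theorem crg_dsc (N : ℕ) : ∃ Q : MvPolynomial ℕ ℤ, ∀ (R : Type) [CommRing R] [Nontrivial R]
    (A : Matrix (Fin 2) (Fin 2) R),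
    MvPolynomial.aeval (fun i => A.charpoly.coeff i) Q = dsc (A ^ N) := by
  obtain ⟨U, V, h1⟩ := crg_pow N
  refine ⟨U ^ 2 * (MvPolynomial.X 1 ^ 2 - 4 * MvPolynomial.X 0), fun R _ _ A => ?_⟩
  obtain ⟨hc1, hc0⟩ := irb_coeff A
  rw [h1 R A, dsc_lin, dsc_eq, map_mul, map_pow, map_sub, map_mul, map_pow, MvPolynomial.aeval_X,
    MvPolynomial.aeval_X, hc1, hc0, map_ofNat]
  ring

/-- Row CRG -/
theorem st_CRG (cmc : ST_CMC) (inf : ST_INF) (trp : ST_TRP) : ST_CRG := by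
  intro F _ _ S hS w h M hinj hss
  have hh : h 0 ≠ h 1 := fun h0 => absurd (hinj h0) (by decide)
  rcases cmc F S hS w h M hh hss with h1 | hcm
  · exact Or.inl h1
  by_cases hirr : ∀ (l : ℕ) [Fact l.Prime], IsIrr (rat (M.ρ l))
  · exact Or.inl hirr
  right
  push Not at hirr
  obtain ⟨l₁, hl₁, hir⟩ := hirr
  unfold IsIrr at hir
  push Not at hir
  obtain ⟨m, B, A, hBA, hm0, hm2⟩ := hir
  obtain ⟨C, hC⟩ := hBA.1
  have hm := ir_dim B C hC
  obtain rfl : m = 1 := by omega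
  refine ⟨rfl, hss, hcm.1, fun N hN l _ => ?_⟩
  by_contra hcon
  push Not at hcon
  obtain ⟨Q, hQ⟩ := crg_dsc N
  have h2 := trp F S hS 2 w h M Set.univ isOpen_univ Q l l₁ (fun σ _ => by
    rw [hQ, dsc_eq, sub_eq_zero]
    exact hcon σ)
  obtain ⟨K, hK⟩ : ∃ K : ℕ, ¬ (l₁ : ℤ_[l₁]) ^ K ∣ ((N : ℕ) : ℤ_[l₁]) := by
    have hN0 : ((N : ℕ) : ℤ_[l₁]) ≠ 0 := by exact_mod_cast hN.ne'
    refine ⟨((N : ℕ) : ℤ_[l₁]).valuation + 1, ?_⟩
    rw [← Ideal.mem_span_singleton, PadicInt.mem_span_pow_iff_le_valuation _ hN0]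
    omega
  obtain ⟨H, hH, hHm⟩ := gl_open (M.ρ l₁) (M.continuous l₁) K
  obtain ⟨σ, hσ, hne⟩ := inf F S hS w h M hh l₁ B A hBA H hH
  have h3 := h2 σ (Set.mem_univ σ)
  rw [hQ] at h3
  obtain ⟨U, V, h4, h5⟩ := gl_pow_eq (M.ρ l₁ σ : Matrix (Fin 2) (Fin 2) ℤ_[l₁]) N
  obtain ⟨h6, -⟩ := h5 _ ((hHm σ).mp hσ)
  have hU : U ≠ 0 := by
    rintro rfl
    rw [zero_sub, dvd_neg] at h6
    exact hK h6
  rw [h4, dsc_lin] at h3
  have h7 : dsc (M.ρ l₁ σ : Matrix (Fin 2) (Fin 2) ℤ_[l₁]) = 0 :=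
    (mul_eq_zero.mp h3).resolve_left (pow_ne_zero 2 hU)
  apply hne
  rw [dsc_eq, sub_eq_zero] at h7
  rw [(irb_rat _ _).1, (irb_rat _ _).2, ← map_pow, h7, map_mul, map_ofNat]

end REC
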