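import Pool.Agent.Helper85.REC.Stmts10

/-!
Row FDS: finiteness for direct sums of small motives.
-/

set_option autoImplicit false

open NumberField

namespace REC

open MU

/-- Row FDS -/
theorem st_FDS (finc : ST_FINC) (sum : ST_SUM) (atp : ST_ATP) (cmp : ST_CMP) (cma : ST_CMA)
    (sml : ST_SML) : ST_FDS := by
  intro F _ _ S hS n w h
  obtain ⟨N, hN⟩ := finc F S hS n w h
  refine ⟨N, fun 𝒯 h𝒯 => hN 𝒯 fun M hM => ?_⟩
  obtain ⟨r, m, h', M', hs, hsm⟩ := h𝒯 M hM
  have hac : ∀ i, Atm (M' i) ∨ Cmr (M' i) := fun i => sml F S hS _ w (h' i) (M' i) (hsm i)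
  refine sum F S n w h M r m h' M' hs (fun i => ?_) fun i j => ?_
  · rcases hac i with hi | hi
    · exact (atp F S hS _ _ w _ _ (M' i) (M' i) hi hi).1
    · exact (cmp F S hS _ _ w _ _ (M' i) (M' i) hi hi).1
  · rcases hac i with hi | hi <;> rcases hac j with hj | hj
    · exact (atp F S hS _ _ w _ _ (M' i) (M' j) hi hj).2
    · exact (cma F S hS _ _ w _ _ (M' j) (M' i) hj hi).2
    · exact (cma F S hS _ _ w _ _ (M' i) (M' j) hi hj).1
    · exact (cmp F S hS _ _ w _ _ (M' i) (M' j) hi hj).2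

end REC
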