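import Pool.Agent.Helper85.REC.Stmts11

/-!
Row FPS: finiteness for motives which are direct sums of small motives over a finite extension.
-/

set_option autoImplicit false

open NumberField

namespace REC

open MU

/-- Row FPS -/
theorem st_FPS (finc : ST_FINC) (smk : ST_SMK) (pcd : ST_PCD) (ppb : ST_PPB) (mxp : ST_MXP)
    (atp : ST_ATP) : ST_FPS := by
  intro F _ _ S hS n w h
  obtain ⟨N, hN⟩ := finc F S hS n w h
  refine ⟨N, fun 𝒯 h𝒯 => hN 𝒯 fun M hM => ?_⟩
  obtain ⟨K, _, _, _, j, r, S', k, m, h', M', hbc, hS', hs, hpc⟩ := h𝒯 M hM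
  have hac : ∀ i, Pab (M' i) ∨ (Atm (M' i) ∧ Nra (M' i)) :=
    fun i => pcd K S' hS' _ w (h' i) (M' i) (hpc i)
  refine smk F K j r hbc S S' n w h M k m h' M' hs (fun i => ?_) fun i i' => ?_
  · rcases hac i with hi | hi
    · exact (ppb K S' hS' _ _ w _ _ (M' i) (M' i) hi hi).1
    · exact (atp K S' hS' _ _ w _ _ (M' i) (M' i) hi.1 hi.1).1
  · rcases hac i with hi | hi <;> rcases hac i' with hj | hj
    · exact (ppb K S' hS' _ _ w _ _ (M' i) (M' i') hi hj).2
    · exact (mxp K S' _ _ w _ _ (M' i) (M' i') hi hj.1 hj.2).1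
    · exact (mxp K S' _ _ w _ _ (M' i') (M' i) hj hi.1 hi.2).2
    · exact (atp K S' hS' _ _ w _ _ (M' i) (M' i') hi.1 hj.1).2

end REC
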