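import Pool.Agent.Helper85.REC.Stmts11
import Pool.Agent.Helper43.MU.Sub

/-!
Common eigenvectors and stable flags of commutative families of matrices (for the rows R2D, R3D).
-/

set_option autoImplicit false

open NumberField

namespace REC

open MU

/-- commuting matrices have a common eigenvector in each stable subspace which is not zero -/
theorem flg_vec {G k : Type} [Group G] [Field k] [IsAlgClosed k] {n : ℕ}
    (r : G →* Matrix (Fin n) (Fin n) k) (hc : ∀ g g', r g * r g' = r g' * r g) (N : ℕ) :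
    ∀ P : Submodule k (Fin n → k), Module.finrank k P ≤ N → P ≠ ⊥ →
      (∀ g, ∀ v ∈ P, (r g).mulVec v ∈ P) →
      ∃ v ∈ P, v ≠ 0 ∧ ∀ g, ∃ a : k, (r g).mulVec v = a • v := by
  induction N with
  | zero =>
    intro P hN hP0 _
    exact absurd (Submodule.finrank_eq_zero.mp (by omega)) hP0
  | succ N ih =>
    intro P hN hP0 hP
    by_cases hsc : ∀ g, ∃ a : k, ∀ v ∈ P, (r g).mulVec v = a • v
    · obtain ⟨v, hv, hv0⟩ := Submodule.exists_mem_ne_zero_of_ne_bot hP0
      refine ⟨v, hv, hv0, fun g => ?_⟩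
      obtain ⟨a, ha⟩ := hsc g
      exact ⟨a, ha v hv⟩
    · push Not at hsc
      obtain ⟨g, hg⟩ := hsc
      have hnt : Nontrivial P := (Submodule.nontrivial_iff_ne_bot).mpr hP0
      obtain ⟨μ, hμ⟩ := Module.End.exists_eigenvalue
        ((Matrix.mulVecLin (r g)).restrict (hP g) : Module.End k P)
      obtain ⟨⟨u, huP⟩, hu⟩ := hμ.exists_hasEigenvector
      have hu1 : (r g).mulVec u = μ • u := congrArg Subtype.val hu.apply_eq_smul
      have hu0 : u ≠ 0 := fun h0 => hu.2 (Subtype.ext h0)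
      obtain ⟨W, hW⟩ : ∃ W : Submodule k (Fin n → k),
          W = P ⊓ LinearMap.ker (Matrix.mulVecLin (r g) - μ • LinearMap.id) := ⟨_, rfl⟩
      have hWm : ∀ v, v ∈ W ↔ v ∈ P ∧ (r g).mulVec v = μ • v := by
        intro v
        rw [hW, Submodule.mem_inf, LinearMap.mem_ker, LinearMap.sub_apply, LinearMap.smul_apply,
          LinearMap.id_apply, Matrix.mulVecLin_apply, sub_eq_zero]
      have hWP : W < P := by
        refine lt_of_le_of_ne (fun v hv => ((hWm v).mp hv).1) fun h0 => ?_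
        obtain ⟨v, hv, hne⟩ := hg μ
        rw [← h0] at hv
        exact hne ((hWm v).mp hv).2
      have hlt := Submodule.finrank_lt_finrank_of_lt hWP
      obtain ⟨v, hv, hv0, hve⟩ := ih W (by omega) (by
        intro h0
        have hmem : u ∈ W := (hWm u).mpr ⟨huP, hu1⟩
        rw [h0, Submodule.mem_bot] at hmem
        exact hu0 hmem) (by
        intro g' v hv
        obtain ⟨h1, h2⟩ := (hWm v).mp hv
        refine (hWm _).mpr ⟨hP g' v h1, ?_⟩
        rw [Matrix.mulVec_mulVec, hc, ← Matrix.mulVec_mulVec, h2, Matrix.mulVec_smul])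
      exact ⟨v, ((hWm v).mp hv).1, hv0, hve⟩

/-- a common eigenvector gives a stable line -/
theorem flg_line {G k : Type} [Group G] [Field k] {n : ℕ} (r : G →* Matrix (Fin n) (Fin n) k)
    (v : Fin n → k) (hv0 : v ≠ 0) (hv : ∀ g, ∃ a : k, (r g).mulVec v = a • v) :
    ∃ A : G → Matrix (Fin 1) (Fin 1) k, IsSub r (Matrix.of fun i (_ : Fin 1) => v i) A := by
  choose a ha using hv
  obtain ⟨i₀, hi₀⟩ : ∃ i, v i ≠ 0 := by
    by_contra hcon
    push Not at hcon
    exact hv0 (funext hcon)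
  refine ⟨fun g => Matrix.of fun _ _ => a g, ⟨Matrix.of fun _ j => if j = i₀ then (v i₀)⁻¹ else 0,
    ?_⟩, fun g => ?_⟩
  · ext c b
    have hc : c = 0 := Subsingleton.elim _ _
    have hb : b = 0 := Subsingleton.elim _ _
    subst hc hb
    rw [Matrix.mul_apply, Finset.sum_eq_single i₀]
    · rw [Matrix.of_apply, Matrix.of_apply, if_pos rfl, inv_mul_cancel₀ hi₀, Matrix.one_apply_eq]
    · intro b _ hb
      rw [Matrix.of_apply, if_neg hb, zero_mul]
    · intro h
      exact absurd (Finset.mem_univ _) h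
  · ext i b
    have h1 := congrFun (ha g) i
    rw [Matrix.mul_apply, Matrix.mul_apply, Fin.sum_univ_one]
    rw [Pi.smul_apply, smul_eq_mul, mul_comm] at h1
    exact h1

theorem flg_mapk {G K k : Type} [Group G] [Field K] [Field k] {n : ℕ} (κ : K →+* k)
    (r : G →* Matrix (Fin n) (Fin n) K) (g g' : G) (h : r g * r g' = r g' * r g) :
    mapk κ r g * mapk κ r g' = mapk κ r g' * mapk κ r g := by
  have h1 : ∀ x, mapk κ r x = κ.mapMatrix (r x) := fun _ => rfl
  rw [h1, h1, ← map_mul, h, map_mul]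

/-- the line for commuting matrices of size two -/
theorem flg_two {G k : Type} [Group G] [Field k] [IsAlgClosed k]
    (r : G →* Matrix (Fin 2) (Fin 2) k) (hc : ∀ g g', r g * r g' = r g' * r g) :
    ∃ (B : Matrix (Fin 2) (Fin 1) k) (A : G → Matrix (Fin 1) (Fin 1) k), IsSub r B A := by
  obtain ⟨v, -, hv0, hv⟩ := flg_vec r hc _ ⊤ le_rfl top_ne_bot (fun _ _ _ => trivial)
  obtain ⟨A, hA⟩ := flg_line r v hv0 hv
  exact ⟨_, A, hA⟩

/-- the flag for commuting matrices of size three -/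
theorem flg_three {G k : Type} [Group G] [Field k] [IsAlgClosed k]
    (r : G →* Matrix (Fin 3) (Fin 3) k) (hc : ∀ g g', r g * r g' = r g' * r g) :
    ∃ (B₁ : Matrix (Fin 3) (Fin 1) k) (A₁ : G → Matrix (Fin 1) (Fin 1) k)
      (B₂ : Matrix (Fin 3) (Fin 2) k) (A₂ : G → Matrix (Fin 2) (Fin 2) k)
      (Y : Matrix (Fin 2) (Fin 1) k), IsSub r B₁ A₁ ∧ IsSub r B₂ A₂ ∧ B₁ = B₂ * Y := by
  obtain ⟨rT, hrT⟩ : ∃ rT : G →* Matrix (Fin 3) (Fin 3) k, ∀ g, rT g = (r g).transpose := by
    refine ⟨{ toFun := fun g => (r g).transpose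
              map_one' := by rw [map_one, Matrix.transpose_one]
              map_mul' := fun g g' => ?_ }, fun g => rfl⟩
    rw [map_mul, hc, Matrix.transpose_mul]
  obtain ⟨φ, -, hφ0, hφ⟩ := flg_vec rT (fun g g' => by
    rw [hrT, hrT, ← Matrix.transpose_mul, ← Matrix.transpose_mul, hc]) _ ⊤ le_rfl top_ne_bot
    (fun _ _ _ => trivial)
  obtain ⟨f, hf⟩ : ∃ f : (Fin 3 → k) →ₗ[k] k, ∀ x, f x = φ ⬝ᵥ x :=
    ⟨(Matrix.of fun (_ : Fin 1) j => φ j).mulVecLin.comp LinearMap.id |> fun q =>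
      (LinearMap.proj 0).comp q, fun x => rfl⟩
  have hfs : LinearMap.range f = ⊤ := by
    rw [LinearMap.range_eq_top]
    obtain ⟨i₀, hi₀⟩ : ∃ i, φ i ≠ 0 := by
      by_contra hcon
      push Not at hcon
      exact hφ0 (funext hcon)
    intro y
    refine ⟨Pi.single i₀ ((φ i₀)⁻¹ * y), ?_⟩
    rw [hf, dotProduct_single, ← mul_assoc, mul_inv_cancel₀ hi₀, one_mul]
  have hfr : Module.finrank k (LinearMap.ker f) = 2 := by
    have h1 := LinearMap.finrank_range_add_finrank_ker f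
    rw [hfs, finrank_top, Module.finrank_self, Module.finrank_fin_fun] at h1
    omega
  have hst : ∀ g, ∀ v ∈ LinearMap.ker f, (r g).mulVec v ∈ LinearMap.ker f := by
    intro g v hv
    rw [LinearMap.mem_ker, hf] at hv ⊢
    obtain ⟨a, ha⟩ := hφ g
    rw [hrT] at ha
    rw [Matrix.dotProduct_mulVec, ← Matrix.mulVec_transpose, ha, smul_dotProduct, hv, smul_zero]
  obtain ⟨v, hv, hv0, hve⟩ := flg_vec r hc _ (LinearMap.ker f) le_rfl (by
    intro h0
    rw [h0, finrank_bot] at hfr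
    omega) hst
  obtain ⟨A₁, hA₁⟩ := flg_line r v hv0 hve
  have key : ∃ d, d = Module.finrank k (LinearMap.ker f) ∧
      ∃ (B : Matrix (Fin 3) (Fin d) k) (A : G → Matrix (Fin d) (Fin d) k), IsSub r B A ∧
        LinearMap.range B.mulVecLin = LinearMap.ker f :=
    ⟨_, rfl, isSub_of_stable r _ hst⟩
  obtain ⟨d, hd, B₂, A₂, hA₂, hrange⟩ := key
  rw [hfr] at hd
  subst hd
  have hv' : v ∈ LinearMap.range B₂.mulVecLin := by rw [hrange]; exact hv
  obtain ⟨y, hy⟩ := hv'
  refine ⟨_, A₁, B₂, A₂, Matrix.of fun i _ => y i, hA₁, hA₂, ?_⟩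
  ext i b
  have h1 := congrFun hy i
  exact h1.symm

end REC
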