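import Pool.Agent.Helper25.REC.QDV

/-!
# REC, row HEV: the Herbrand quotient depends only on the real representation
-/

set_option autoImplicit false

open scoped Classical

namespace REC

section

variable {A : Type} [CommGroup A] {V : Type} [NormedAddCommGroup V] [NormedSpace ℝ V] {ℓ : A → V}

/-- sublattices -/
theorem isLat_sub (H : IsLat A V ℓ) (B : Subgroup A) (W : Submodule ℝ V) (hB : ∀ b ∈ B, ℓ b ∈ W)
    (p : A → A) (P : V →ₗ[ℝ] V) (hp : ∀ a, p a ∈ B) (hP : ∀ a, ℓ (p a) = P (ℓ a))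
    (hW : ∀ v ∈ W, ∃ x, P x = v) : IsLat B W (fun b => (⟨ℓ b, hB b b.2⟩ : W)) := by
  refine ⟨fun a b => ?_, fun R => ?_, ?_⟩
  · apply Subtype.ext
    exact H.mul a b
  · refine Set.Finite.of_finite_image (f := Subtype.val) ((H.fin R).subset ?_)
      (Set.injOn_of_injective Subtype.val_injective)
    rintro _ ⟨b, hb, rfl⟩
    exact hb
  · obtain ⟨S, hS⟩ : ∃ S : Submodule ℝ W, S = Submodule.span ℝ (Set.range
      (fun b : B => (⟨ℓ b, hB b b.2⟩ : W))) := ⟨_, rfl⟩
    rw [← hS]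
    have h1 : ∀ x : V, P x ∈ S.map W.subtype := by
      intro x
      have hx : x ∈ Submodule.span ℝ (Set.range ℓ) := by
        rw [H.span]
        exact Submodule.mem_top
      induction hx using Submodule.span_induction with
      | mem x hx =>
        obtain ⟨a, rfl⟩ := hx
        rw [← hP]
        refine ⟨⟨ℓ (p a), hB _ (hp a)⟩, ?_, rfl⟩
        rw [hS]
        exact Submodule.subset_span ⟨⟨p a, hp a⟩, rfl⟩
      | zero =>
        rw [map_zero]
        exact Submodule.zero_mem _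
      | add x y _ _ hx hy =>
        rw [map_add]
        exact Submodule.add_mem _ hx hy
      | smul c x _ hx =>
        rw [map_smul]
        exact Submodule.smul_mem _ c hx
    rw [Submodule.eq_top_iff']
    intro v
    obtain ⟨x, hx⟩ := hW v v.2
    obtain ⟨y, hy, hy'⟩ := h1 x
    have : y = v := Subtype.ext (hy'.trans hx)
    rw [← this]
    exact hy

end

/-- HEV -/
theorem st_HEV (hHRB : ST_HRB) (hQDV : ST_QDV) : ST_HEV := by
  intro V _ _ _ T n hn hT
  obtain ⟨D, hD⟩ : ∃ D : Module.End ℝ V, D = T - 1 := ⟨_, rfl⟩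
  obtain ⟨N, hN⟩ : ∃ N : Module.End ℝ V, N = ∑ i ∈ Finset.range n, T ^ i := ⟨_, rfl⟩
  have hn0 : (n : ℝ) ≠ 0 := by exact_mod_cast hn.ne'
  have hND : N * D = 0 := by rw [hN, hD, geom_sum_mul, hT, sub_self]
  have hDN : D * N = 0 := by rw [hN, hD, mul_geom_sum, hT, sub_self]
  have hfix : ∀ v, D v = 0 → T v = v := by
    intro v hv
    rw [hD, LinearMap.sub_apply, Module.End.one_apply, sub_eq_zero] at hv
    exact hv
  have hNfix : ∀ v, D v = 0 → N v = (n : ℝ) • v := by
    intro v hv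
    have h1 : ∀ i : ℕ, (T ^ i) v = v := by
      intro i
      induction i with
      | zero => rfl
      | succ i ih =>
        rw [pow_succ, Module.End.mul_apply, hfix v hv]
        exact ih
    rw [hN, LinearMap.sum_apply, Finset.sum_congr rfl (fun i _ => h1 i), Finset.sum_const,
      Finset.card_range]
    exact (Nat.cast_smul_eq_nsmul ℝ n v).symm
  -- surjectivity on the kernels
  have hsur0 : ∀ v ∈ LinearMap.ker D, ∃ x, N x = v := by
    intro v hv
    refine ⟨(n : ℝ)⁻¹ • v, ?_⟩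
    rw [map_smul, hNfix v hv, smul_smul, inv_mul_cancel₀ hn0, one_smul]
  have hsur1 : ∀ v ∈ LinearMap.ker N, ∃ x, D x = v := by
    intro v hv
    have h1 : ∀ i, ∃ x, D x = (T ^ i) v - v := by
      intro i
      refine ⟨(∑ k ∈ Finset.range i, T ^ k) v, ?_⟩
      have h2 := mul_geom_sum T i
      rw [← hD] at h2
      have h3 := congrArg (fun X : Module.End ℝ V => X v) h2
      exact h3
    choose x hx using h1
    refine ⟨-((n : ℝ)⁻¹ • ∑ i ∈ Finset.range n, x i), ?_⟩
    have h4 : ∑ i ∈ Finset.range n, D (x i) = -((n : ℝ) • v) := by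
      rw [Finset.sum_congr rfl (fun i _ => hx i), Finset.sum_sub_distrib, Finset.sum_const,
        Finset.card_range]
      have h5 : ∑ i ∈ Finset.range n, (T ^ i) v = 0 := by
        have := LinearMap.mem_ker.mp hv
        rw [hN, LinearMap.sum_apply] at this
        exact this
      rw [h5, zero_sub, Nat.cast_smul_eq_nsmul]
    rw [map_neg, map_smul, map_sum, h4, smul_neg, neg_neg, smul_smul, inv_mul_cancel₀ hn0, one_smul]
  -- the restriction of `D` to the kernel of `N`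
  have hDst : ∀ v ∈ LinearMap.ker N, D v ∈ LinearMap.ker N := by
    intro v _
    rw [LinearMap.mem_ker]
    have := congrArg (fun X : Module.End ℝ V => X v) hND
    exact this
  obtain ⟨D1, hD1⟩ : ∃ D1 : LinearMap.ker N →ₗ[ℝ] LinearMap.ker N,
      ∀ x, ((D1 x : LinearMap.ker N) : V) = D (x : V) := ⟨D.restrict hDst, fun x => rfl⟩
  have hD1inj : Function.Injective D1 := by
    rw [← LinearMap.ker_eq_bot, LinearMap.ker_eq_bot']
    intro x hx
    have h1 : D (x : V) = 0 := by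
      rw [← hD1, hx]
      rfl
    have h2 := hNfix _ h1
    rw [LinearMap.mem_ker.mp x.2] at h2
    apply Subtype.ext
    exact (smul_eq_zero.mp h2.symm).resolve_left hn0
  have hD1det : LinearMap.det D1 ≠ 0 := by
    have h1 := (LinearMap.isUnit_iff_ker_eq_bot D1).mpr (LinearMap.ker_eq_bot.mpr hD1inj)
    exact ((LinearMap.isUnit_iff_isUnit_det D1).mp h1).ne_zero
  -- multiplication by `n` on the kernel of `D`
  obtain ⟨M0, hM0⟩ : ∃ M0 : LinearMap.ker D →ₗ[ℝ] LinearMap.ker D,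
      M0 = (n : ℝ) • LinearMap.id := ⟨_, rfl⟩
  have hM0det : LinearMap.det M0 = (n : ℝ) ^ Module.finrank ℝ (LinearMap.ker D) := by
    rw [hM0, LinearMap.det_smul, LinearMap.det_id, mul_one]
  have hM0det0 : LinearMap.det M0 ≠ 0 := by
    rw [hM0det]
    exact pow_ne_zero _ hn0
  refine ⟨|LinearMap.det D1| / |LinearMap.det M0|, div_pos (abs_pos.mpr hD1det) (abs_pos.mpr hM0det0), ?_⟩
  intro A _ ℓ s H hs hℓ
  have hnm : ∀ a, ℓ (nm s n a) = N (ℓ a) := by
    intro a
    have h1 : ∀ i : ℕ, ℓ ((s ^ i : MulAut A) a) = (T ^ i) (ℓ a) := by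
      intro i
      induction i with
      | zero => rfl
      | succ i ih => rw [pow_succ', pow_succ', MulAut.mul_apply, hℓ, ih, Module.End.mul_apply]
    rw [nm_apply, l_prod H.mul, hN, LinearMap.sum_apply]
    exact Finset.sum_congr rfl (fun i _ => h1 i)
  have hdd : ∀ a, ℓ (dd s a) = D (ℓ a) := by
    intro a
    rw [dd_apply, l_div H.mul, hℓ, hD]
    rfl
  have hB0 : ∀ b ∈ (dd s).ker, ℓ b ∈ LinearMap.ker D := by
    intro b hb
    rw [LinearMap.mem_ker, ← hdd, MonoidHom.mem_ker.mp hb, l_one H.mul]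
  have hB1 : ∀ b ∈ (nm s n).ker, ℓ b ∈ LinearMap.ker N := by
    intro b hb
    rw [LinearMap.mem_ker, ← hnm, MonoidHom.mem_ker.mp hb, l_one H.mul]
  have L0 := isLat_sub H (dd s).ker (LinearMap.ker D) hB0 (nm s n) N
    (fun a => range_nm_le s n hs ⟨a, rfl⟩) hnm hsur0
  have L1 := isLat_sub H (nm s n).ker (LinearMap.ker N) hB1 (dd s) D
    (fun a => range_dd_le s n hs ⟨a, rfl⟩) hdd hsur1
  -- the two endomorphisms
  obtain ⟨φ0, hφ0⟩ : ∃ φ0 : (dd s).ker →* (dd s).ker, ∀ a, φ0 a = a ^ n := ⟨powMonoidHom n, fun a => rfl⟩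
  have hdst : ∀ a : (nm s n).ker, dd s a ∈ (nm s n).ker := fun a => range_dd_le s n hs ⟨a, rfl⟩
  obtain ⟨φ1, hφ1⟩ : ∃ φ1 : (nm s n).ker →* (nm s n).ker, ∀ a, ((φ1 a : (nm s n).ker) : A) = dd s a :=
    ⟨((dd s).comp (nm s n).ker.subtype).codRestrict (nm s n).ker hdst, fun a => rfl⟩
  obtain ⟨q1, q2, q3⟩ := hQDV _ _ _ L0 φ0 M0 (by
    intro a
    apply Subtype.ext
    rw [hφ0, hM0]
    show ℓ ((a ^ n : (dd s).ker) : A) = (n : ℝ) • ℓ a
    rw [Subgroup.coe_pow, l_pow H.mul, Nat.cast_smul_eq_nsmul]) hM0det0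
  obtain ⟨r1, r2, r3⟩ := hQDV _ _ _ L1 φ1 D1 (by
    intro a
    apply Subtype.ext
    rw [hD1]
    show ℓ ((φ1 a : (nm s n).ker) : A) = D (ℓ a)
    rw [hφ1, hdd]) hD1det
  have k0 : ((dd s).ker.map (powMonoidHom n)).relIndex (dd s).ker = φ0.range.index := by
    unfold Subgroup.relIndex
    congr 1
    ext a
    rw [Subgroup.mem_subgroupOf, Subgroup.mem_map, MonoidHom.mem_range]
    constructor
    · rintro ⟨b, hb, hb'⟩
      refine ⟨⟨b, hb⟩, ?_⟩
      rw [hφ0]
      apply Subtype.ext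
      exact hb'
    · rintro ⟨b, hb⟩
      refine ⟨b, b.2, ?_⟩
      rw [← hb, hφ0]
      rfl
  have k1 : ((nm s n).ker.map (dd s)).relIndex (nm s n).ker = φ1.range.index := by
    unfold Subgroup.relIndex
    congr 1
    ext a
    rw [Subgroup.mem_subgroupOf, Subgroup.mem_map, MonoidHom.mem_range]
    constructor
    · rintro ⟨b, hb, hb'⟩
      refine ⟨⟨b, hb⟩, ?_⟩
      apply Subtype.ext
      rw [hφ1]
      exact hb'
    · rintro ⟨b, hb⟩
      refine ⟨b, b.2, ?_⟩
      rw [← hb, hφ1]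
  -- the kernels have the same order
  have hcard : Nat.card φ0.ker = Nat.card φ1.ker := by
    have e0 : ∀ a : A, (∃ h : a ∈ (dd s).ker, (⟨a, h⟩ : (dd s).ker) ∈ φ0.ker) ↔
        (s a = a ∧ a ^ n = 1) := by
      intro a
      constructor
      · rintro ⟨h, h'⟩
        rw [MonoidHom.mem_ker, hφ0] at h'
        exact ⟨(mem_ker_dd s a).mp h, congrArg Subtype.val h'⟩
      · rintro ⟨h, h'⟩
        refine ⟨(mem_ker_dd s a).mpr h, ?_⟩
        rw [MonoidHom.mem_ker, hφ0]
        exact Subtype.ext h'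
    have e1 : ∀ a : A, (∃ h : a ∈ (nm s n).ker, (⟨a, h⟩ : (nm s n).ker) ∈ φ1.ker) ↔
        (s a = a ∧ a ^ n = 1) := by
      intro a
      constructor
      · rintro ⟨h, h'⟩
        rw [MonoidHom.mem_ker] at h'
        have h2 := congrArg Subtype.val h'
        rw [hφ1] at h2
        have h3 : s a = a := (mem_ker_dd s a).mp (MonoidHom.mem_ker.mpr h2)
        refine ⟨h3, ?_⟩
        rw [← nm_of_fix s n h3]
        exact MonoidHom.mem_ker.mp h
      · rintro ⟨h, h'⟩
        refine ⟨?_, ?_⟩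
        · rw [MonoidHom.mem_ker, nm_of_fix s n h, h']
        · rw [MonoidHom.mem_ker]
          apply Subtype.ext
          rw [hφ1]
          exact MonoidHom.mem_ker.mp ((mem_ker_dd s a).mpr h)
    have c0 : Nat.card φ0.ker = Nat.card {a : A // s a = a ∧ a ^ n = 1} := by
      refine Nat.card_congr
        { toFun := fun x => ⟨x.1.1, (e0 x.1.1).mp ⟨x.1.2, x.2⟩⟩
          invFun := fun x => ⟨⟨x.1, ((e0 x.1).mpr x.2).choose⟩, ((e0 x.1).mpr x.2).choose_spec⟩
          left_inv := fun x => rfl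
          right_inv := fun x => rfl }
    have c1 : Nat.card φ1.ker = Nat.card {a : A // s a = a ∧ a ^ n = 1} := by
      refine Nat.card_congr
        { toFun := fun x => ⟨x.1.1, (e1 x.1.1).mp ⟨x.1.2, x.2⟩⟩
          invFun := fun x => ⟨⟨x.1, ((e1 x.1).mpr x.2).choose⟩, ((e1 x.1).mpr x.2).choose_spec⟩
          left_inv := fun x => rfl
          right_inv := fun x => rfl }
    rw [c0, c1]
  obtain ⟨t1, t2, t3⟩ := hHRB A s n hn hs (by rw [k0]; exact q2) (by rw [k1]; exact r2)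
  refine ⟨t1, t2, ?_⟩
  rw [k0, k1] at t3
  have t4 : (h0 s n : ℝ) * (φ1.range.index : ℝ) = (φ0.range.index : ℝ) * (h1 s n : ℝ) := by
    exact_mod_cast t3
  rw [q3, r3, hcard] at t4
  have hc0 : (Nat.card φ1.ker : ℝ) ≠ 0 := by
    exact_mod_cast (Nat.card_pos (α := φ1.ker)).ne'
  have hm0 : |LinearMap.det M0| ≠ 0 := abs_ne_zero.mpr hM0det0
  have t5 : (Nat.card φ1.ker : ℝ) * ((h0 s n : ℝ) * |LinearMap.det D1|) =
      (Nat.card φ1.ker : ℝ) * (|LinearMap.det M0| * (h1 s n : ℝ)) := by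
    linarith
  have t6 := mul_left_cancel₀ hc0 t5
  rw [mul_div_assoc', t6, mul_div_right_comm, div_self hm0, one_mul]

end REC
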