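import Pool.Agent.Helper57.REC.Stmts3

/-!
# REC, row HRB: an identity of indices
-/

set_option autoImplicit false

open scoped Classical

namespace REC

section

variable {A : Type} [CommGroup A] (s : MulAut A) (n : ℕ)

theorem nm_apply (a : A) : nm s n a = ∏ i ∈ Finset.range n, (s ^ i : MulAut A) a := by
  unfold nm
  rw [MonoidHom.finsetProd_apply]
  rfl

theorem dd_apply (a : A) : dd s a = s a / a := rfl

theorem mem_ker_dd (a : A) : a ∈ (dd s).ker ↔ s a = a := by
  rw [MonoidHom.mem_ker, dd_apply, div_eq_one]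

theorem pow_fix {a : A} (h : s a = a) (i : ℕ) : (s ^ i : MulAut A) a = a := by
  induction i with
  | zero => rfl
  | succ i ih => rw [pow_succ, MulAut.mul_apply, h, ih]

theorem nm_of_fix {a : A} (h : s a = a) : nm s n a = a ^ n := by
  rw [nm_apply, Finset.prod_congr rfl (fun i _ => pow_fix s h i), Finset.prod_const,
    Finset.card_range]

theorem nm_s (hs : s ^ n = 1) (a : A) : nm s n (s a) = nm s n a := by
  rw [nm_apply, nm_apply]
  have h1 : ∀ i ∈ Finset.range n, (s ^ i : MulAut A) (s a) = (s ^ (i + 1) : MulAut A) a := by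
    intro i _
    rw [pow_succ, MulAut.mul_apply]
  rw [Finset.prod_congr rfl h1]
  have h2 := Finset.prod_range_succ' (fun i => (s ^ i : MulAut A) a) n
  have h3 := Finset.prod_range_succ (fun i => (s ^ i : MulAut A) a) n
  rw [h3] at h2
  rw [hs, pow_zero] at h2
  exact (mul_right_cancel h2).symm

theorem s_nm (hs : s ^ n = 1) (a : A) : s (nm s n a) = nm s n a := by
  rw [nm_apply, map_prod]
  have h1 : ∀ i ∈ Finset.range n, s ((s ^ i : MulAut A) a) = (s ^ (i + 1) : MulAut A) a := by
    intro i _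
    rw [pow_succ', MulAut.mul_apply]
  rw [Finset.prod_congr rfl h1]
  have h2 := Finset.prod_range_succ' (fun i => (s ^ i : MulAut A) a) n
  have h3 := Finset.prod_range_succ (fun i => (s ^ i : MulAut A) a) n
  rw [h3] at h2
  rw [hs, pow_zero] at h2
  exact (mul_right_cancel h2).symm

theorem range_nm_le (hs : s ^ n = 1) : (nm s n).range ≤ (dd s).ker := by
  rintro _ ⟨a, rfl⟩
  rw [mem_ker_dd]
  exact s_nm s n hs a

theorem range_dd_le (hs : s ^ n = 1) : (dd s).range ≤ (nm s n).ker := by
  rintro _ ⟨a, rfl⟩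
  rw [MonoidHom.mem_ker, dd_apply, map_div, nm_s s n hs, div_self']

theorem map_nm_eq : ((dd s).ker.map (nm s n)) = (dd s).ker.map (powMonoidHom n) := by
  ext x
  rw [Subgroup.mem_map, Subgroup.mem_map]
  constructor
  · rintro ⟨a, ha, rfl⟩
    exact ⟨a, ha, (nm_of_fix s n ((mem_ker_dd s a).mp ha)).symm⟩
  · rintro ⟨a, ha, rfl⟩
    exact ⟨a, ha, nm_of_fix s n ((mem_ker_dd s a).mp ha)⟩

end

/-- HRB -/
theorem st_HRB : ST_HRB := by
  intro A _ s n hn hs h1' h2'
  have e1 : ((dd s).ker.map (nm s n)).relIndex (nm s n).range = ((dd s).ker ⊔ (nm s n).ker).index := by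
    rw [MonoidHom.range_eq_map, Subgroup.relIndex_map_map, top_sup_eq, Subgroup.relIndex_top_right]
  have e2 : ((nm s n).ker.map (dd s)).relIndex (dd s).range = ((nm s n).ker ⊔ (dd s).ker).index := by
    rw [MonoidHom.range_eq_map, Subgroup.relIndex_map_map, top_sup_eq, Subgroup.relIndex_top_right]
  have e3 : ((dd s).ker.map (nm s n)).relIndex (nm s n).range =
      ((nm s n).ker.map (dd s)).relIndex (dd s).range := by
    rw [e1, e2, sup_comm]
  have e4 : ((dd s).ker.map (nm s n)).relIndex (nm s n).range * h0 s n =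
      ((dd s).ker.map (powMonoidHom n)).relIndex (dd s).ker := by
    unfold h0
    rw [Subgroup.relIndex_mul_relIndex _ _ _ (Subgroup.map_le_range _ _) (range_nm_le s n hs),
      map_nm_eq]
  have e5 : ((nm s n).ker.map (dd s)).relIndex (dd s).range * h1 s n =
      ((nm s n).ker.map (dd s)).relIndex (nm s n).ker := by
    unfold h1
    rw [Subgroup.relIndex_mul_relIndex _ _ _ (Subgroup.map_le_range _ _) (range_dd_le s n hs)]
  rw [← e4] at h1'
  rw [← e5] at h2'
  refine ⟨right_ne_zero_of_mul h1', right_ne_zero_of_mul h2', ?_⟩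
  rw [← e4, ← e5, e3]
  ring

end REC
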