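import Pool.Agent.Helper85.REC.Stmts11

/-!
Row PCD: the summands are potentially abelian or absolutely irreducible.
-/

set_option autoImplicit false

open NumberField

namespace REC

open MU

theorem pcd_dim {K : Type} [Field K] {n m : ℕ} (B : Matrix (Fin n) (Fin m) K)
    (C : Matrix (Fin m) (Fin n) K) (h : C * B = 1) : m ≤ n := by
  have h1 : (1 : Matrix (Fin m) (Fin m) K).rank ≤ n := by
    rw [← h]
    refine (Matrix.rank_mul_le_right C B).trans ?_
    refine (Matrix.rank_le_card_height B).trans ?_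
    simp
  rwa [Matrix.rank_one, Fintype.card_fin] at h1

/-- representations of dimension at most one are completely reducible -/
theorem pcd_ss {G K : Type} [Group G] [Field K] {n : ℕ} (hn : n ≤ 1)
    (r : G →* Matrix (Fin n) (Fin n) K) : IsSS r := by
  intro m B A hBA
  obtain ⟨⟨C, hC⟩, hA⟩ := hBA
  have hm := pcd_dim B C hC
  have hor : m = 0 ∨ m = n := by omega
  rcases hor with hm | hm
  · subst hm
    exact ⟨0, Subsingleton.elim _ _, fun g => Subsingleton.elim _ _⟩
  · subst hm
    refine ⟨C, hC, fun g => ?_⟩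
    have hBC : B * C = 1 := mul_eq_one_comm.1 hC
    calc C * r g = C * r g * (B * C) := by rw [hBC, Matrix.mul_one]
      _ = C * (r g * B) * C := by simp only [Matrix.mul_assoc]
      _ = C * B * A g * C := by rw [hA g, ← Matrix.mul_assoc]
      _ = A g * C := by rw [hC, Matrix.one_mul]

theorem pcd_comm {R : Type} [CommRing R] {n : ℕ} (hn : n ≤ 1)
    (a b : Matrix.GeneralLinearGroup (Fin n) R) : a * b = b * a := by
  apply Units.ext
  rw [Units.val_mul, Units.val_mul]
  have hsub : Subsingleton (Fin n) := by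
    rw [Fin.subsingleton_iff_le_one]
    exact hn
  ext i j
  rw [Matrix.mul_apply, Matrix.mul_apply]
  refine Finset.sum_congr rfl fun k _ => ?_
  rw [Subsingleton.elim k i, Subsingleton.elim j i, mul_comm]

theorem pcd_small {F : Type} [Field F] [NumberField F] {S : Finset ℕ} {n w : ℕ} {h : Fin n → ℕ}
    (M : Mot F S n w h) (hn : n ≤ 1) : Pab M :=
  ⟨fun _ _ => pcd_ss hn _, ⊤, isOpen_univ, fun _ _ _ _ _ _ => pcd_comm hn _ _⟩

/-- Row PCD -/
theorem st_PCD (una : ST_UNA) (sea : ST_SEA) (r2d : ST_R2D) (r3d : ST_R3D) : ST_PCD := by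
  intro F _ _ S hS n w h M hM
  rcases hM with hM | hM | ⟨rfl, hinj, hstr, hss⟩ | ⟨rfl, hinj, hsym, hstr, hirr⟩ | hM | hM
  · exact Or.inl hM
  · exact Or.inr hM
  · exact r2d F S hS w h M hinj hstr hss
  · exact Or.inr (r3d F S hS w h M hinj hsym hstr hirr)
  · rcases una F S hS n w h M hM with hn | hr
    · exact Or.inl (pcd_small M hn)
    · exact Or.inr hr
  · rcases sea F S hS n w h M hM with hn | hr
    · exact Or.inl (pcd_small M hn)
    · exact Or.inr hr

end REC
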