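import Pool.Agent.Helper25.REC.HRB

/-!
# REC, row QDV: the index of the image of an endomorphism
-/

set_option autoImplicit false

open scoped Classical

namespace REC

section

variable {A : Type} [CommGroup A] {V : Type} [NormedAddCommGroup V] [NormedSpace ℝ V] {ℓ : A → V}

/-- `ℓ` as a homomorphism -/
def hl (h : ∀ a b, ℓ (a * b) = ℓ a + ℓ b) : A →* Multiplicative V :=
  MonoidHom.mk' (fun a => Multiplicative.ofAdd (ℓ a)) (fun a b => by
    rw [h]
    rfl)

theorem l_one (h : ∀ a b, ℓ (a * b) = ℓ a + ℓ b) : ℓ 1 = 0 := by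
  have := h 1 1
  rw [mul_one] at this
  exact (add_eq_left.mp this.symm)

theorem l_inv (h : ∀ a b, ℓ (a * b) = ℓ a + ℓ b) (a : A) : ℓ a⁻¹ = -ℓ a := by
  have h1 := h a a⁻¹
  rw [mul_inv_cancel, l_one h] at h1
  exact (neg_eq_of_add_eq_zero_right h1.symm).symm

theorem l_div (h : ∀ a b, ℓ (a * b) = ℓ a + ℓ b) (a b : A) : ℓ (a / b) = ℓ a - ℓ b := by
  rw [div_eq_mul_inv, h, l_inv h, sub_eq_add_neg]

theorem l_pow (h : ∀ a b, ℓ (a * b) = ℓ a + ℓ b) (a : A) (n : ℕ) : ℓ (a ^ n) = n • ℓ a := by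
  induction n with
  | zero => rw [pow_zero, l_one h, zero_smul]
  | succ n ih => rw [pow_succ, h, ih, succ_nsmul]

theorem l_prod (h : ∀ a b, ℓ (a * b) = ℓ a + ℓ b) {ι : Type} (S : Finset ι) (f : ι → A) :
    ℓ (∏ i ∈ S, f i) = ∑ i ∈ S, ℓ (f i) := by
  induction S using Finset.induction_on with
  | empty => rw [Finset.prod_empty, Finset.sum_empty, l_one h]
  | insert i S hi ih => rw [Finset.prod_insert hi, Finset.sum_insert hi, h, ih]

theorem mem_ker_hl (h : ∀ a b, ℓ (a * b) = ℓ a + ℓ b) (a : A) : a ∈ (hl h).ker ↔ ℓ a = 0 := by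
  rw [MonoidHom.mem_ker]
  exact Iff.rfl

/-- the lattice -/
def lam (h : ∀ a b, ℓ (a * b) = ℓ a + ℓ b) : Submodule ℤ V :=
  AddSubgroup.toIntSubmodule
    { carrier := Set.range ℓ
      add_mem' := by
        rintro _ _ ⟨a, rfl⟩ ⟨b, rfl⟩
        exact ⟨a * b, h a b⟩
      zero_mem' := ⟨1, l_one h⟩
      neg_mem' := by
        rintro _ ⟨a, rfl⟩
        exact ⟨a⁻¹, l_inv h a⟩ }

theorem mem_lam (h : ∀ a b, ℓ (a * b) = ℓ a + ℓ b) (x : V) : x ∈ lam h ↔ ∃ a, ℓ a = x := Iff.rfl

theorem discrete_lam (H : IsLat A V ℓ) : DiscreteTopology (lam H.mul) := by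
  refine discreteTopology_of_isOpen_singleton_zero ?_
  refine isOpen_singleton_of_finite_mem_nhds 0 (s := Metric.closedBall 0 1) ?_ ?_
  · exact Metric.closedBall_mem_nhds _ (by simp)
  · refine Set.Finite.of_finite_image ?_ (Set.injOn_of_injective Subtype.val_injective)
    refine ((H.fin 1).image ℓ).subset ?_
    rintro _ ⟨x, hx, rfl⟩
    obtain ⟨a, ha⟩ := (mem_lam H.mul _).mp x.2
    refine ⟨a, ?_, ha⟩
    rw [Set.mem_ofPred_eq, ha]
    have := mem_closedBall_zero_iff.mp hx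
    exact this

theorem isZLattice_lam (H : IsLat A V ℓ) :
    letI := discrete_lam H
    IsZLattice ℝ (lam H.mul) := by
  let _ := discrete_lam H
  refine ⟨?_⟩
  have : ((lam H.mul : Submodule ℤ V) : Set V) = Set.range ℓ := rfl
  rw [this, H.span]

end

/-- the index of the image of a lattice -/
theorem index_lam {V : Type} [NormedAddCommGroup V] [NormedSpace ℝ V] [FiniteDimensional ℝ V]
    (Λ : Submodule ℤ V) [DiscreteTopology Λ] [IsZLattice ℝ Λ] (Φ : V →ₗ[ℝ] V)
    (f : Λ →ₗ[ℤ] Λ) (hf : ∀ x : Λ, ((f x : Λ) : V) = Φ (x : V)) (hd : LinearMap.det Φ ≠ 0) :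
    (Nat.card (Λ ⧸ LinearMap.range f) : ℝ) = |LinearMap.det Φ| := by
  have i1 : Module.Finite ℤ Λ := ZLattice.module_finite ℝ Λ
  have i2 : Module.Free ℤ Λ := ZLattice.module_free ℝ Λ
  have hinj : Function.Injective f := by
    intro x y hxy
    apply Subtype.ext
    have hk : LinearMap.ker Φ = ⊥ := by
      have := (LinearMap.isUnit_iff_ker_eq_bot Φ).mp ((LinearMap.isUnit_iff_isUnit_det Φ).mpr
        (isUnit_iff_ne_zero.mpr hd))
      exact this
    apply LinearMap.ker_eq_bot.mp hk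
    rw [← hf, ← hf, hxy]
  have h1 := Submodule.natAbs_det_equiv (LinearMap.range f) (LinearEquiv.ofInjective f hinj)
  have h2 : (LinearMap.range f).subtype ∘ₗ
      AddMonoidHom.toIntLinearMap ((LinearEquiv.ofInjective f hinj : Λ ≃ₗ[ℤ] LinearMap.range f) :
        Λ →+ LinearMap.range f) = f := by
    apply LinearMap.ext
    intro x
    rfl
  rw [h2] at h1
  rw [← h1]
  have h3 : ((LinearMap.det f : ℤ) : ℝ) = LinearMap.det Φ := by
    obtain ⟨b, hb⟩ : ∃ b : Module.Basis (Module.Free.ChooseBasisIndex ℤ Λ) ℤ Λ,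
      b = Module.Free.chooseBasis ℤ Λ := ⟨_, rfl⟩
    have h4 := LinearMap.det_toMatrix b f
    have h5 := LinearMap.det_toMatrix (b.ofZLatticeBasis ℝ Λ) Φ
    rw [← h4, ← h5]
    have h6 : LinearMap.toMatrix (b.ofZLatticeBasis ℝ Λ) (b.ofZLatticeBasis ℝ Λ) Φ =
        (LinearMap.toMatrix b b f).map (Int.castRingHom ℝ) := by
      ext i j
      rw [LinearMap.toMatrix_apply, Matrix.map_apply, LinearMap.toMatrix_apply,
        Module.Basis.ofZLatticeBasis_apply, ← hf, Module.Basis.ofZLatticeBasis_repr_apply]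
      rfl
    rw [h6]
    exact (RingHom.map_det (Int.castRingHom ℝ) _)
  rw [← h3, Nat.cast_natAbs]
  push_cast
  rfl

/-- QDV -/
theorem st_QDV : ST_QDV := by
  intro A _ V _ _ _ ℓ H φ Φ hφ hd
  have hΦ : Function.Injective Φ := by
    have := (LinearMap.isUnit_iff_ker_eq_bot Φ).mp ((LinearMap.isUnit_iff_isUnit_det Φ).mpr
      (isUnit_iff_ne_zero.mpr hd))
    exact LinearMap.ker_eq_bot.mp this
  obtain ⟨T0, hT0⟩ : ∃ T0 : Subgroup A, T0 = (hl H.mul).ker := ⟨_, rfl⟩
  have hmem : ∀ a, a ∈ T0 ↔ ℓ a = 0 := by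
    intro a
    rw [hT0]
    exact mem_ker_hl H.mul a
  have hker : φ.ker ≤ T0 := by
    intro a ha
    rw [hmem]
    apply hΦ
    rw [← hφ, MonoidHom.mem_ker.mp ha, l_one H.mul, map_zero]
  have hT0f : Finite T0 := by
    have h1 : (T0 : Set A).Finite := by
      refine (H.fin 0).subset ?_
      intro a ha
      rw [Set.mem_ofPred_eq, (hmem a).mp ha, norm_zero]
    exact h1.to_subtype
  have hkf : Finite φ.ker := by
    have h1 : (φ.ker : Set A).Finite := (Set.toFinite (T0 : Set A)).subset hker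
    exact h1.to_subtype
  -- first index
  have i1 : ((φ.range ⊔ T0).index : ℝ) = |LinearMap.det Φ| := by
    let _ := discrete_lam H
    let _ := isZLattice_lam H
    have hst : ∀ x : V, x ∈ lam H.mul → Φ x ∈ lam H.mul := by
      intro x hx
      obtain ⟨a, ha⟩ := (mem_lam H.mul _).mp hx
      rw [mem_lam]
      exact ⟨φ a, by rw [hφ, ha]⟩
    obtain ⟨f, hf⟩ : ∃ f : lam H.mul →ₗ[ℤ] lam H.mul, ∀ x, ((f x : lam H.mul) : V) = Φ (x : V) :=
      ⟨(AddMonoidHom.mk' (fun x : lam H.mul => (⟨Φ (x : V), hst x.1 x.2⟩ : lam H.mul)) (by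
        intro x y
        apply Subtype.ext
        exact map_add Φ _ _)).toIntLinearMap, fun x => rfl⟩
    have e2 := index_lam (lam H.mul) Φ f hf hd
    rw [← e2]
    congr 1
    obtain ⟨g, hg⟩ : ∃ g : A →* Multiplicative (lam H.mul ⧸ LinearMap.range f), ∀ a, g a =
        Multiplicative.ofAdd (Submodule.Quotient.mk (⟨ℓ a, ⟨a, rfl⟩⟩ : lam H.mul)) :=
      ⟨MonoidHom.mk' (fun a => Multiplicative.ofAdd
        (Submodule.Quotient.mk (⟨ℓ a, ⟨a, rfl⟩⟩ : lam H.mul))) (by
          intro a b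
          rw [← ofAdd_add, ← Submodule.Quotient.mk_add]
          congr 2
          apply Subtype.ext
          exact H.mul a b), fun a => rfl⟩
    have hgs : Function.Surjective g := by
      intro y
      obtain ⟨x, hx⟩ := Submodule.Quotient.mk_surjective _ (Multiplicative.toAdd y)
      obtain ⟨a, ha⟩ := (mem_lam H.mul _).mp x.2
      refine ⟨a, ?_⟩
      rw [hg]
      have : (⟨ℓ a, ⟨a, rfl⟩⟩ : lam H.mul) = x := Subtype.ext ha
      rw [this, hx]
      rfl
    have hgk : g.ker = φ.range ⊔ T0 := by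
      ext a
      rw [MonoidHom.mem_ker, hg, ← ofAdd_zero, Multiplicative.ofAdd.apply_eq_iff_eq,
        Submodule.Quotient.mk_eq_zero, LinearMap.mem_range, Subgroup.mem_sup]
      constructor
      · rintro ⟨x, hx⟩
        obtain ⟨b, hb⟩ := (mem_lam H.mul _).mp x.2
        have h1 := congrArg Subtype.val hx
        rw [hf, ← hb, ← hφ] at h1
        refine ⟨φ b, ⟨b, rfl⟩, a / φ b, ?_, mul_div_cancel _ _⟩
        rw [hmem, l_div H.mul, h1, sub_self]
      · rintro ⟨_, ⟨b, rfl⟩, c, hc, rfl⟩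
        refine ⟨⟨ℓ b, ⟨b, rfl⟩⟩, ?_⟩
        apply Subtype.ext
        rw [hf]
        show Φ (ℓ b) = ℓ (φ b * c)
        rw [H.mul, hφ, (hmem c).mp hc, add_zero]
    rw [← hgk, Subgroup.index_ker, MonoidHom.range_eq_top.mpr hgs, Subgroup.card_top]
    rfl
  -- second index
  have i2 : φ.range.relIndex (φ.range ⊔ T0) = Nat.card φ.ker := by
    rw [sup_comm, Subgroup.relIndex_sup_right, ← Subgroup.inf_relIndex_right]
    have e1 : φ.range ⊓ T0 = T0.map φ := by
      ext a
      rw [Subgroup.mem_inf, Subgroup.mem_map]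
      constructor
      · rintro ⟨⟨b, rfl⟩, h2⟩
        refine ⟨b, ?_, rfl⟩
        rw [hmem] at h2 ⊢
        rw [hφ] at h2
        apply hΦ
        rw [h2, map_zero]
      · rintro ⟨b, hb, rfl⟩
        refine ⟨⟨b, rfl⟩, ?_⟩
        rw [hmem, hφ, (hmem b).mp hb, map_zero]
    rw [e1]
    have e2 : Nat.card (T0.map φ) * (T0.map φ).relIndex T0 = Nat.card T0 := by
      have := Subgroup.card_mul_index ((T0.map φ).subgroupOf T0)
      have h2 : Nat.card ((T0.map φ).subgroupOf T0) = Nat.card (T0.map φ) := by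
        have hle : T0.map φ ≤ T0 := by
          rw [← e1]
          exact inf_le_right
        exact Nat.card_congr (Subgroup.subgroupOfEquivOfLe hle).toEquiv
      rw [h2] at this
      exact this
    have e3 : Nat.card φ.ker * Nat.card (T0.map φ) = Nat.card T0 := by
      have h1 := Subgroup.relIndex_ker (K := T0) φ
      have := Subgroup.card_mul_index (φ.ker.subgroupOf T0)
      have h2 : Nat.card (φ.ker.subgroupOf T0) = Nat.card φ.ker :=
        Nat.card_congr (Subgroup.subgroupOfEquivOfLe hker).toEquiv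
      rw [h2] at this
      rw [← h1]
      exact this
    have h3 : 0 < Nat.card (T0.map φ) := by
      have : Finite (T0.map φ) := by
        have h1 : ((T0.map φ : Subgroup A) : Set A).Finite := (Set.toFinite (T0 : Set A)).image φ
        exact h1.to_subtype
      exact Nat.card_pos
    apply Nat.eq_of_mul_eq_mul_left h3
    rw [e2, ← e3, mul_comm]
  have i3 : (φ.range.index : ℝ) = Nat.card φ.ker * |LinearMap.det Φ| := by
    have := Subgroup.relIndex_mul_index (show φ.range ≤ φ.range ⊔ T0 from le_sup_left)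
    rw [i2] at this
    rw [← this]
    push_cast
    rw [i1]
  refine ⟨hkf, ?_, i3⟩
  intro h0
  rw [h0, Nat.cast_zero] at i3
  have h1 : (Nat.card φ.ker : ℝ) ≠ 0 := by
    exact_mod_cast (Nat.card_pos (α := φ.ker)).ne'
  exact (mul_ne_zero h1 (abs_ne_zero.mpr hd)) i3.symm

end REC
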