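import Pool.Agent.Helper25.REC.Flg

/-!
Row R2D: completely reducible motives of rank two are potentially abelian or absolutely irreducible.
-/

set_option autoImplicit false

open NumberField

namespace REC

open MU

/-- Row R2D -/
theorem st_R2D (crg : ST_CRG) (sml : ST_SML) (fd2 : ST_FD2) (nf2 : ST_NF2) (clf : ST_CLF)
    (fxf : ST_FXF) (ixb : ST_IXB) : ST_R2D := by
  intro F _ _ S hS w h M hinj hstr hss
  -- commutative motives are potentially abelian
  have hcm : Cmr M → Pab M := fun hC => ⟨hss, ⊤, isOpen_univ, fun l _ g _ g' _ => hC.2.2.1 l g g'⟩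
  rcases crg F S hS w h M hinj hss with hirr | hC
  · rcases sml F S hS 2 w h M (Or.inr (Or.inl ⟨rfl, hinj, hstr.1, hss⟩)) with hat | hC
    · by_cases hn : Nra M
      · exact Or.inr ⟨hat, hn⟩
      left
      unfold Nra at hn
      push Not at hn
      obtain ⟨H, hH, hHc⟩ := hn
      obtain ⟨K, _, _, _, j, r, hbc, hrH, hrn⟩ := fxf F H hH
      obtain ⟨M', hflt', hM'⟩ := hstr.2 K j r hbc
      have hrat : ∀ (l : ℕ) [Fact l.Prime], rat (M'.ρ l) = (rat (M.ρ l)).comp r := by
        intro l _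
        apply MonoidHom.ext
        intro g
        show (M'.ρ l g : Matrix (Fin 2) (Fin 2) ℤ_[l]).map (algebraMap ℤ_[l] ℚ_[l]) =
          (M.ρ l (r g) : Matrix (Fin 2) (Fin 2) ℤ_[l]).map (algebraMap ℤ_[l] ℚ_[l])
        rw [hM']
      have hres : ∀ (l : ℕ) [Fact l.Prime] (g : Gal K), res (M'.ρ l) g = res (M.ρ l) (r g) := by
        intro l _ g
        show (M'.ρ l g : Matrix (Fin 2) (Fin 2) ℤ_[l]).map (PadicInt.toZMod (p := l)) =
          (M.ρ l (r g) : Matrix (Fin 2) (Fin 2) ℤ_[l]).map (PadicInt.toZMod (p := l))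
        rw [hM']
      have hss' : ∀ (l : ℕ) [Fact l.Prime], IsSS (rat (M'.ρ l)) := by
        intro l _
        rw [hrat]
        exact clf (Gal F) (Gal K) ℚ_[l] r 2 (rat (M.ρ l)) hrn (hss l)
      have hni : ¬ ∀ (l : ℕ) [Fact l.Prime], IsIrr (rat (M'.ρ l)) := by
        intro hirr'
        obtain ⟨c₁, hc₁⟩ := fd2 K S hS w h M' hflt'
        obtain ⟨c₂, hc₂⟩ := nf2 K S hS w h M' hinj hirr'
        obtain ⟨l, hl, hlc, hcom⟩ := hHc (max c₁ c₂)
        have hl1 : c₁ < l := lt_of_le_of_lt (le_max_left _ _) hlc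
        have hl2 : c₂ < l := lt_of_le_of_lt (le_max_right _ _) hlc
        obtain ⟨B, A, hBA⟩ := flg_two (k := AlgebraicClosure (ZMod l))
          (mapk (algebraMap (ZMod l) (AlgebraicClosure (ZMod l))) (res (M'.ρ l))) (by
            intro g g'
            apply flg_mapk
            rw [hres, hres]
            exact hcom (r g) (hrH ⟨g, rfl⟩) (r g') (hrH ⟨g', rfl⟩))
        exact hc₂ l hl2 (hc₁ l hl1 _ _ B A hBA)
      have hC' := (crg K S hS w h M' hinj hss').resolve_left hni
      refine ⟨hss, r.range, (ixb F K j r hbc).1, ?_⟩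
      rintro l _ _ ⟨g, rfl⟩ _ ⟨g', rfl⟩
      rw [← hM', ← hM']
      exact hC'.2.2.1 l g g'
    · exact Or.inl (hcm hC)
  · exact Or.inl (hcm hC)

end REC
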