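import Pool.Agent.Helper25.REC.Flg

/-!
Row R3D: irreducible motives of rank three.
-/

set_option autoImplicit false

open NumberField

namespace REC

open MU

theorem r3d_irr {G H K : Type} [Group G] [Group H] [Field K] {n : ℕ}
    (r : G →* Matrix (Fin n) (Fin n) K) (φ : H →* G) (h : ¬ IsIrr (r.comp φ)) :
    ¬ IsIrr (r.comp φ.range.subtype) := by
  intro h'
  apply h
  intro m B A hBA
  obtain ⟨hC, hA⟩ := hBA
  have hp : ∀ g : φ.range, ∃ x : H, φ x = g := fun g => g.2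
  choose p hp using hp
  refine h' m B (fun g => A (p g)) ⟨hC, fun g => ?_⟩
  have h1 := hA (p g)
  rw [MonoidHom.comp_apply, hp] at h1
  exact h1

theorem r3d_scalar {k : Type} [Field k] (n : ℕ) (a : k) :
    (a • (1 : Matrix (Fin n) (Fin n) k)).charpoly =
      (Polynomial.X - Polynomial.C a) ^ n := by
  rw [Matrix.smul_one_eq_diagonal, Matrix.charpoly_diagonal, Finset.prod_const, Finset.card_univ,
    Fintype.card_fin]

/-- Row R3D -/
theorem st_R3D (sml : ST_SML) (sc3 : ST_SC3) (fd3 : ST_FD3) (nfd : ST_NFD) (deq : ST_DEQ)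
    (fxf : ST_FXF) (ixb : ST_IXB) : ST_R3D := by
  intro F _ _ S hS w h M hinj hsym hstr hirr
  have hat : Atm M := by
    rcases sml F S hS 3 w h M (Or.inr (Or.inr ⟨rfl, hinj, hsym, hstr.1, hirr⟩)) with hat | hC
    · exact hat
    · exact absurd hC.1 (by decide)
  have hres : ∀ (K : Type) [Field K] [NumberField K] (r : Gal K →* Gal F) (M' : Mot K S 3 w h),
      (∀ (l : ℕ) [Fact l.Prime] (g : Gal K), M'.ρ l g = M.ρ l (r g)) →
      ∀ (l : ℕ) [Fact l.Prime] (g : Gal K), res (M'.ρ l) g = res (M.ρ l) (r g) := by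
    intro K _ _ r M' hM' l _ g
    show (M'.ρ l g : Matrix (Fin 3) (Fin 3) ℤ_[l]).map (PadicInt.toZMod (p := l)) =
      (M.ρ l (r g) : Matrix (Fin 3) (Fin 3) ℤ_[l]).map (PadicInt.toZMod (p := l))
    rw [hM']
  -- the flags
  have hflag : ∀ (K : Type) [Field K] [NumberField K] (M' : Mot K S 3 w h), FLT M' →
      ∃ c : ℕ, ∀ (l : ℕ) [Fact l.Prime], c < l →
        (∀ g g', res (M'.ρ l) g * res (M'.ρ l) g' = res (M'.ρ l) g' * res (M'.ρ l) g) →
        FDat M' l := by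
    intro K _ _ M' hflt'
    obtain ⟨c, hc⟩ := fd3 K S hS w h M' hflt'
    refine ⟨c, fun l _ hl hcom => ?_⟩
    obtain ⟨B₁, A₁, B₂, A₂, Y, h1, h2, h3⟩ := flg_three (k := AlgebraicClosure (ZMod l))
      (mapk (algebraMap (ZMod l) (AlgebraicClosure (ZMod l))) (res (M'.ρ l)))
      (fun g g' => flg_mapk _ _ _ _ (hcom g g'))
    exact hc l hl _ _ B₁ A₁ B₂ A₂ Y h1 h2 h3
  -- the restrictions are irreducible
  have hir : ∀ (K : Type) [Field K] [NumberField K] [Algebra F K]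
      (j : AlgebraicClosure F ≃+* AlgebraicClosure K) (r : Gal K →* Gal F), IsBC F K j r →
      r.range.Normal → ∀ M' : Mot K S 3 w h,
      (∀ (l : ℕ) [Fact l.Prime] (g : Gal K), M'.ρ l g = M.ρ l (r g)) →
      ∀ (l : ℕ) [Fact l.Prime], IsIrr (rat (M'.ρ l)) := by
    intro K _ _ _ j r hbc hrn M' hM' l₀ _
    by_contra hcon
    have hrat : rat (M'.ρ l₀) = (rat (M.ρ l₀)).comp r := by
      apply MonoidHom.ext
      intro g
      show (M'.ρ l₀ g : Matrix (Fin 3) (Fin 3) ℤ_[l₀]).map (algebraMap ℤ_[l₀] ℚ_[l₀]) =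
        (M.ρ l₀ (r g) : Matrix (Fin 3) (Fin 3) ℤ_[l₀]).map (algebraMap ℤ_[l₀] ℚ_[l₀])
      rw [hM']
    rw [hrat] at hcon
    obtain ⟨H', c, hH'n, hH'o, hH'⟩ := sc3 F S hS w h M hat l₀ r.range hrn (ixb F K j r hbc).1
      (r3d_irr _ r hcon)
    obtain ⟨K', _, _, _, j', r', hbc', hrH', hrn'⟩ := fxf F H' hH'o
    obtain ⟨M'', hflt'', hM''⟩ := hstr.2 K' j' r' hbc'
    have hsc : ∀ (l : ℕ) [Fact l.Prime], c < l → ∀ g : Gal K', ∃ a : ZMod l,
        res (M''.ρ l) g = a • (1 : Matrix (Fin 3) (Fin 3) (ZMod l)) := by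
      intro l _ hl g
      rw [hres K' r' M'' hM'']
      exact hH' l hl (r' g) (hrH' ⟨g, rfl⟩)
    obtain ⟨c₁, hc₁⟩ := hflag K' M'' hflt''
    obtain ⟨c₂, hc₂⟩ := deq K' S hS 3 w h M'' hinj (by norm_num)
    obtain ⟨l, hlc, hlp⟩ := Nat.exists_infinite_primes (max c (max c₁ c₂) + 1)
    have hl : Fact l.Prime := ⟨hlp⟩
    have hl0 : c < l := by
      have := le_max_left c (max c₁ c₂)
      omega
    have hl1 : c₁ < l := by
      have h1 := le_max_right c (max c₁ c₂)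
      have h2 := le_max_left c₁ c₂
      omega
    have hl2 : c₂ < l := by
      have h1 := le_max_right c (max c₁ c₂)
      have h2 := le_max_right c₁ c₂
      omega
    have hfd : FDat M'' l := by
      apply hc₁ l hl1
      intro g g'
      obtain ⟨a, ha⟩ := hsc l hl0 g
      obtain ⟨b, hb⟩ := hsc l hl0 g'
      rw [ha, hb, Matrix.smul_mul, Matrix.one_mul, Matrix.smul_mul, Matrix.one_mul, smul_comm]
    obtain ⟨σ, hσ⟩ := hc₂ l hl2 hfd
    obtain ⟨a, ha⟩ := hsc l hl0 σ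
    apply hσ a
    rw [ha, r3d_scalar]
  refine ⟨hat, ?_⟩
  by_contra hn
  unfold Nra at hn
  push Not at hn
  obtain ⟨H, hH, hHc⟩ := hn
  obtain ⟨K, _, _, _, j, r, hbc, hrH, hrn⟩ := fxf F H hH
  obtain ⟨M', hflt', hM'⟩ := hstr.2 K j r hbc
  obtain ⟨c₁, hc₁⟩ := hflag K M' hflt'
  obtain ⟨c₂, hc₂⟩ := nfd K S hS w h M' hinj (hir K j r hbc hrn M' hM')
  obtain ⟨l, hl, hlc, hcom⟩ := hHc (max c₁ c₂)
  have hl1 : c₁ < l := lt_of_le_of_lt (le_max_left _ _) hlc
  have hl2 : c₂ < l := lt_of_le_of_lt (le_max_right _ _) hlc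
  apply hc₂ l hl2
  apply hc₁ l hl1
  intro g g'
  rw [hres K r M' hM', hres K r M' hM']
  exact hcom (r g) (hrH ⟨g, rfl⟩) (r g') (hrH ⟨g', rfl⟩)

end REC
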