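import Pool.Agent.Helper57.REC.Stmts1

/-!
# REC, rows RDU, XSG, RST: ray characters and characters of the ray class group
-/

set_option autoImplicit false

open scoped Classical
open NumberField

namespace REC

open Pool.Agent.Helper13.ZL (Pl q HasMean)
open MU (Gal Zb Over CongPow)

section

variable {F : Type} [Field F] [NumberField F]

theorem h25_le_iff {v v' : Pl F} (h : v.asIdeal ≤ v'.asIdeal) : v = v' := by
  have h1 : v.asIdeal.IsMaximal := v.isPrime.isMaximal v.ne_bot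
  apply IsDedekindDomain.HeightOneSpectrum.ext
  exact h1.eq_of_le v'.isPrime.ne_top h

theorem h25_cop_pl {B : Finset (Pl F)} {v : Pl F} (hv : v ∉ B) : Cop B v.asIdeal := by
  refine ⟨v.ne_bot, fun v' hv' h => hv ?_⟩
  rw [h25_le_iff h]
  exact hv'

theorem h25_cop_top (B : Finset (Pl F)) : Cop B (⊤ : Ideal (𝓞 F)) := by
  refine ⟨?_, fun v _ h => v.isPrime.ne_top (top_le_iff.mp h)⟩
  intro h
  have h1 : (1 : 𝓞 F) ∈ (⊤ : Ideal (𝓞 F)) := Submodule.mem_top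
  rw [h, Ideal.mem_bot] at h1
  exact one_ne_zero h1

theorem h25_cop_mul {B : Finset (Pl F)} {I J : Ideal (𝓞 F)} (hI : Cop B I) (hJ : Cop B J) :
    Cop B (I * J) := by
  refine ⟨fun h => ?_, fun v hv h => ?_⟩
  · rcases Ideal.mul_eq_bot.mp h with h1 | h1
    · exact hI.1 h1
    · exact hJ.1 h1
  · rcases (v.isPrime.mul_le).mp h with h1 | h1
    · exact hI.2 v hv h1
    · exact hJ.2 v hv h1

theorem h25_cop_of_le {B : Finset (Pl F)} {I J : Ideal (𝓞 F)} (hI : Cop B I) (h : I ≤ J) :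
    Cop B J := by
  refine ⟨fun h1 => hI.1 ?_, fun v hv h1 => hI.2 v hv (h.trans h1)⟩
  rw [h1] at h
  exact le_bot_iff.mp h

theorem h25_cop_ray {B : Finset (Pl F)} {N : ℕ} (hN : 0 < N) {x : 𝓞 F} (hx : Ray B N x) :
    Cop B (Ideal.span {x}) := by
  refine ⟨fun h => hx.1 (Ideal.span_singleton_eq_bot.mp h), fun v hv h => ?_⟩
  have h1 : x ∈ v.asIdeal := h (Ideal.mem_span_singleton_self x)
  have h2 : x - 1 ∈ v.asIdeal := Ideal.pow_le_self hN.ne' (hx.2.2 v hv)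
  have h3 : (1 : 𝓞 F) ∈ v.asIdeal := by
    have := v.asIdeal.sub_mem h1 h2
    rwa [sub_sub_cancel] at this
  exact v.isPrime.ne_top ((Ideal.eq_top_iff_one _).mpr h3)

theorem h25_ray_one (B : Finset (Pl F)) (N : ℕ) : Ray B N (1 : 𝓞 F) := by
  refine ⟨one_ne_zero, fun σ => ?_, fun v _ => ?_⟩
  · rw [RingOfIntegers.coe_eq_algebraMap, map_one, map_one]
    exact one_pos
  · rw [sub_self]
    exact Submodule.zero_mem _

theorem h25_ray_mono {B B' : Finset (Pl F)} {N N' : ℕ} (hB : B ⊆ B') (hN : N ≤ N') {x : 𝓞 F}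
    (hx : Ray B' N' x) : Ray B N x :=
  ⟨hx.1, hx.2.1, fun v hv => Ideal.pow_le_pow_right hN (hx.2.2 v (hB hv))⟩

theorem h25_isRay_mono {B : Finset (Pl F)} {N N' : ℕ} (hN : N ≤ N') {f : Pl F → ℂˣ}
    (hf : IsRay B N f) : IsRay B N' f :=
  ⟨hf.1, fun x hx => hf.2 x (h25_ray_mono (Finset.Subset.refl B) hN hx)⟩

/-- induction on ideals prime to `B` -/
theorem h25_ind {B : Finset (Pl F)} (P : Ideal (𝓞 F) → Prop) (h1 : P ⊤)
    (h2 : ∀ (v : Pl F) (I : Ideal (𝓞 F)), v ∉ B → Cop B I → P I → P (v.asIdeal * I)) :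
    ∀ I : Ideal (𝓞 F), Cop B I → P I := by
  intro I
  induction I using UniqueFactorizationMonoid.induction_on_prime with
  | h₁ =>
    intro h
    exact absurd rfl h.1
  | h₂ x hx =>
    intro _
    rw [Ideal.isUnit_iff.mp hx]
    exact h1
  | h₃ a p ha hp ih =>
    intro h
    have hp' : p.IsPrime := Ideal.isPrime_of_prime hp
    have hpb : p ≠ ⊥ := hp.ne_zero
    obtain ⟨v, hv⟩ : ∃ v : Pl F, v.asIdeal = p := ⟨⟨p, hp', hpb⟩, rfl⟩
    rw [← hv] at h ⊢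
    have hvB : v ∉ B := fun hB => h.2 v hB Ideal.mul_le_left
    have ha' : Cop B a := h25_cop_of_le h Ideal.mul_le_right
    exact h2 v a hvB ha' (ih ha')

end

/-- RDU -/
theorem st_RDU (hEV : ST_EV) : ST_RDU := by
  intro F _ _ B N hN G _ _ cl hcl
  obtain ⟨e1, e2, e3, -, -, -, -⟩ := hEV F ℂˣ
  have hcl1 : cl ⊤ = 1 := by
    have := hcl.ray 1 (h25_ray_one B N)
    rwa [Ideal.span_singleton_one] at this
  constructor
  · intro ψ
    have key : ∀ I : Ideal (𝓞 F), Cop B I →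
        ev (fun v => if v ∈ B then 1 else ψ (cl v.asIdeal)) I = ψ (cl I) := by
      apply h25_ind
      · rw [e1, hcl1, map_one]
      · intro v I hv hI ih
        rw [e2 _ _ _ v.ne_bot hI.1, e3, if_neg hv, ih, hcl.mul _ _ (h25_cop_pl hv) hI, map_mul]
    refine ⟨⟨fun v hv => if_pos hv, fun x hx => ?_⟩, key⟩
    rw [key _ (h25_cop_ray hN hx), hcl.ray x hx, map_one]
  · intro f hf
    have hwd : ∀ I J : Ideal (𝓞 F), Cop B I → Cop B J → cl I = cl J → ev f I = ev f J := by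
      intro I J hI hJ hIJ
      obtain ⟨x, y, hx, hy, hxy⟩ := hcl.rel I J hI hJ hIJ
      have h1 := congrArg (ev f) hxy
      rw [e2 _ _ _ (h25_cop_ray hN hx).1 hI.1, e2 _ _ _ (h25_cop_ray hN hy).1 hJ.1, hf.2 x hx,
        hf.2 y hy, one_mul, one_mul] at h1
      exact h1
    choose Ig hIg using hcl.sur
    refine ⟨MonoidHom.mk' (fun g => ev f (Ig g)) ?_, ?_⟩
    · intro a b
      show ev f (Ig (a * b)) = ev f (Ig a) * ev f (Ig b)
      rw [← e2 _ _ _ (hIg a).1.1 (hIg b).1.1]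
      apply hwd _ _ (hIg _).1 (h25_cop_mul (hIg a).1 (hIg b).1)
      rw [hcl.mul _ _ (hIg a).1 (hIg b).1, (hIg _).2, (hIg a).2, (hIg b).2]
    · intro I hI
      show ev f I = ev f (Ig (cl I))
      exact hwd _ _ hI (hIg _).1 (hIg _).2.symm

/-- XSG -/
theorem st_XSG (hRCG : ST_RCG) (hRDU : ST_RDU) (hEV : ST_EV) : ST_XSG := by
  intro F _ _ Y B N
  obtain ⟨e1, e2, e3, e4, e5, e6, -⟩ := hEV F ℂˣ
  refine ⟨{ carrier := X Y B N, mul_mem' := ?_, one_mem' := ?_, inv_mem' := ?_ }, rfl, ?_⟩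
  · intro f g hf hg
    refine ⟨⟨fun v hv => ?_, fun x hx => ?_⟩, fun v hv 𝔓 h𝔓 j σ hσ hY => ?_⟩
    · rw [Pi.mul_apply, hf.1.1 v hv, hg.1.1 v hv, one_mul]
    · have := e4 f g (Ideal.span {x})
      rw [hf.1.2 x hx, hg.1.2 x hx, one_mul] at this
      exact this
    · rw [Pi.mul_apply, mul_pow, hf.2 v hv 𝔓 h𝔓 j σ hσ hY, hg.2 v hv 𝔓 h𝔓 j σ hσ hY, one_mul]
  · refine ⟨⟨fun v hv => rfl, fun x hx => ?_⟩, fun v hv 𝔓 h𝔓 j σ hσ hY => one_pow j⟩
    have := e4 1 1 (Ideal.span {x})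
    have h2 : (fun v : Pl F => (1 : Pl F → ℂˣ) v * (1 : Pl F → ℂˣ) v) = 1 := by
      funext v
      exact one_mul _
    rw [h2] at this
    exact (mul_eq_left.mp this.symm)
  · intro f hf
    refine ⟨⟨fun v hv => ?_, fun x hx => ?_⟩, fun v hv 𝔓 h𝔓 j σ hσ hY => ?_⟩
    · rw [Pi.inv_apply, hf.1.1 v hv, inv_one]
    · have := e6 ℂˣ (invMonoidHom : ℂˣ →* ℂˣ) f (Ideal.span {x})
      rw [hf.1.2 x hx, map_one] at this
      exact this
    · rw [Pi.inv_apply, inv_pow, hf.2 v hv 𝔓 h𝔓 j σ hσ hY, inv_one]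
  · obtain ⟨G, iG, iF, cl, hcl⟩ := hRCG F B (N + 1) (Nat.succ_pos N)
    have h1 := (hRDU F B (N + 1) (Nat.succ_pos N) G cl hcl).2
    have h2 : ∀ f : X Y B N, ∃ ψ : G →* ℂˣ, ∀ I : Ideal (𝓞 F), Cop B I → ev f.1 I = ψ (cl I) :=
      fun f => h1 f.1 (h25_isRay_mono (Nat.le_succ N) f.2.1)
    choose ψ hψ using h2
    have hinj : Function.Injective ψ := by
      intro f g hfg
      apply Subtype.ext
      funext v
      by_cases hv : v ∈ B
      · rw [f.2.1.1 v hv, g.2.1.1 v hv]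
      · rw [← e3 f.1 v, ← e3 g.1 v, hψ f _ (h25_cop_pl hv), hψ g _ (h25_cop_pl hv), hfg]
    exact Finite.of_injective ψ hinj

/-- RST -/
theorem st_RST (hRCG : ST_RCG) (hPRT : ST_PRT) (hRDU : ST_RDU) (hEV : ST_EV) : ST_RST := by
  intro F _ _ B B' N N' hB hN hN'
  obtain ⟨e1, e2, e3, e4, e5, e6, -⟩ := hEV F ℂˣ
  constructor
  · intro Y f hf
    refine ⟨⟨fun v hv => if_pos hv, fun x hx => ?_⟩, fun v hv 𝔓 h𝔓 j σ hσ hY => ?_⟩
    · rw [← hf.1.2 x (h25_ray_mono hB hN hx)]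
      apply e5
      intro v hv
      have hvB : v ∉ B' := fun h => (h25_cop_ray hN' hx).2 v h hv
      exact if_neg hvB
    · show (if v ∈ B' then 1 else f v) ^ j = 1
      rw [if_neg hv]
      exact hf.2 v (fun h => hv (hB h)) 𝔓 h𝔓 j σ hσ hY
  · intro f g hf hg hfg
    obtain ⟨G, iG, iF, cl, hcl⟩ := hRCG F B N' hN'
    have h1 := (hRDU F B N' hN' G cl hcl).2
    obtain ⟨ψ, hψ⟩ := h1 f (h25_isRay_mono hN hf)
    obtain ⟨φ, hφ⟩ := h1 g (h25_isRay_mono hN hg)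
    funext v
    by_cases hv : v ∈ B
    · rw [hf.1 v hv, hg.1 v hv]
    · obtain ⟨I, hI1, hI2, hI3⟩ := hPRT F B B' N' hN' G cl hcl (cl v.asIdeal)
      have h2 : ev f I = ev g I := by
        apply e5
        intro v' hv'
        exact hfg v' (fun h => hI2.2 v' h hv')
      rw [hψ I hI1, hφ I hI1, hI3, ← hψ _ (h25_cop_pl hv), ← hφ _ (h25_cop_pl hv), e3, e3] at h2
      exact h2

end REC
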