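import Mathlib
import Pool.Agent.Helper57.REC.StmtsX

/-!
Row XFM: families which are sums of summands (from XCP).
-/

set_option autoImplicit false

open scoped Classical
open NumberField Polynomial

namespace REC

open Pool.Agent.Helper13.ZL (Pl q)
open MU

/-- maps from the integers of a number field to a field of characteristic zero are injective -/
theorem xfm_inj {L Ω : Type} [Field L] [NumberField L] [Field Ω] [CharZero Ω] (ι : 𝓞 L →+* Ω) :
    Function.Injective ι := by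
  rw [RingHom.injective_iff_ker_eq_bot]
  have hp : (RingHom.ker ι).IsPrime := RingHom.ker_isPrime ι
  apply Ideal.eq_bot_of_comap_eq_bot (R := ℤ)
  rw [eq_bot_iff]
  intro x hx
  rw [Ideal.mem_comap, RingHom.mem_ker, eq_intCast, map_intCast] at hx
  rw [Ideal.mem_bot]
  exact_mod_cast hx

/-- the decomposition over a field of characteristic zero -/
theorem xfm_dec {n k : ℕ} {L : Type} [Field L] [NumberField L] {m : Fin k → ℕ}
    (b : ∀ i, Blo n (m i) L) (hd : IsDcp b) {Ω : Type} [Field Ω] [CharZero Ω] (ι : 𝓞 L →+* Ω) :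
    ∃ Q : ∀ i, Matrix (Fin n) (Fin (m i)) Ω, (∀ i, (b i).P.map ι * Q i = 1) ∧
      (∀ i j, i ≠ j → (b i).P.map ι * Q j = 0) ∧ ∑ i, Q i * (b i).P.map ι = 1 := by
  obtain ⟨h0, N, hN, hbN, hsum⟩ := hd
  have hN0 : (N : Ω) ≠ 0 := by
    exact_mod_cast hN.ne'
  refine ⟨fun i => (N : Ω)⁻¹ • (b i).Q.map ι, ?_, ?_, ?_⟩
  · intro i
    rw [Matrix.mul_smul, ← Matrix.map_mul, (b i).PQ, hbN i, Matrix.map_smul' _ _ _ (map_mul _),
      map_natCast, Matrix.map_one _ (map_zero _) (map_one _), smul_smul, inv_mul_cancel₀ hN0,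
      one_smul]
  · intro i j hij
    rw [Matrix.mul_smul, ← Matrix.map_mul, h0 i j hij, Matrix.map_zero _ (map_zero _), smul_zero]
  · have h1 : ∀ i, ((N : Ω)⁻¹ • (b i).Q.map ι) * (b i).P.map ι =
        (N : Ω)⁻¹ • ((b i).Q * (b i).P).map ι := by
      intro i
      rw [Matrix.smul_mul, Matrix.map_mul]
    simp only [h1]
    rw [← Finset.smul_sum]
    have h2 : ∑ i, ((b i).Q * (b i).P).map ι = (∑ i, (b i).Q * (b i).P).map ι := by
      have h3 := map_sum (ι.mapMatrix (m := Fin n)) (fun i => (b i).Q * (b i).P) Finset.univ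
      simp only [RingHom.mapMatrix_apply] at h3
      exact h3.symm
    rw [h2, hsum, Matrix.map_smul' _ _ _ (map_mul _), map_natCast,
      Matrix.map_one _ (map_zero _) (map_one _), smul_smul, inv_mul_cancel₀ hN0, one_smul]

/-- a polynomial over the integers of a Galois extension which is fixed by all automorphisms -/
theorem xfm_fix {L : Type} [Field L] [NumberField L] [IsGalois ℚ L] (Φ : (𝓞 L)[X])
    (h : ∀ γ : L →+* L, Φ.map (RingOfIntegers.mapRingHom γ) = Φ) :
    ∃ P : ℤ[X], P.map (Int.castRingHom (𝓞 L)) = Φ := by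
  have h1 : ∀ i, ∃ z : ℤ, (z : 𝓞 L) = Φ.coeff i := by
    intro i
    have h2 : ((Φ.coeff i : 𝓞 L) : L) ∈ (⊥ : IntermediateField ℚ L) := by
      rw [IsGalois.mem_bot_iff_fixed]
      intro f
      have h3 := congrArg (fun p : (𝓞 L)[X] => p.coeff i) (h (f : L →+* L))
      simp only [Polynomial.coeff_map] at h3
      exact congrArg (fun x : 𝓞 L => (x : L)) h3
    obtain ⟨r, hr⟩ := IntermediateField.mem_bot.mp h2
    have h4 : IsIntegral ℤ r := by
      have h5 : IsIntegral ℤ ((algebraMap ℚ L) r) := by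
        rw [hr]
        exact RingOfIntegers.isIntegral_coe _
      exact (isIntegral_algebraMap_iff (algebraMap ℚ L).injective).mp h5
    obtain ⟨z, hz⟩ := IsIntegrallyClosed.isIntegral_iff.mp h4
    refine ⟨z, ?_⟩
    apply RingOfIntegers.coe_injective
    show ((z : 𝓞 L) : L) = ((Φ.coeff i : 𝓞 L) : L)
    rw [← hr, ← hz]
    simp
  choose z hz using h1
  refine ⟨∑ i ∈ Φ.support, (Polynomial.C (z i) * Polynomial.X ^ i), ?_⟩
  rw [Polynomial.map_sum]
  conv_rhs => rw [Φ.as_sum_support_C_mul_X_pow]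
  refine Finset.sum_congr rfl fun i _ => ?_
  rw [Polynomial.map_mul, Polynomial.map_C, Polynomial.map_pow, Polynomial.map_X, eq_intCast,
    hz i]

theorem st_XFM (xcp : ST_XCP) : ST_XFM := by
  intro F L _ _ _ _ _ n k m b S ρ hc hd hb
  refine ⟨hc, ?_⟩
  intro p hp hpS 𝔓 hO k' σ hk hσ
  have hΦ := fun i => (hb i).2 p hp hpS 𝔓 hO k' σ hk hσ
  choose Φ hΦ using hΦ
  -- the basic identity
  have key : ∀ (l : ℕ) [Fact l.Prime], l ≠ p → ∀ ι : 𝓞 L →+* AlgebraicClosure ℚ_[l],
      ((ρ l σ⁻¹ : Matrix.GeneralLinearGroup (Fin n) ℤ_[l]) :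
        Matrix (Fin n) (Fin n) ℤ_[l]).charpoly.map
          ((algebraMap ℚ_[l] (AlgebraicClosure ℚ_[l])).comp (algebraMap ℤ_[l] ℚ_[l])) =
        (∏ i, Φ i).map ι := by
    intro l _ hl ι
    obtain ⟨Ω, hΩ⟩ : ∃ Ω : Type, Ω = AlgebraicClosure ℚ_[l] := ⟨_, rfl⟩
    have : CharZero (AlgebraicClosure ℚ_[l]) :=
      charZero_of_injective_algebraMap (algebraMap ℚ_[l] (AlgebraicClosure ℚ_[l])).injective
    have hN : ∀ i, ((b i).N : AlgebraicClosure ℚ_[l]) ≠ 0 := by
      intro i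
      exact_mod_cast (b i).pos.ne'
    have hR := fun i => (hb i).1 l (AlgebraicClosure ℚ_[l])
      ((algebraMap ℚ_[l] (AlgebraicClosure ℚ_[l])).comp (algebraMap ℤ_[l] ℚ_[l])) ι (hN i)
    choose R hR using hR
    obtain ⟨Q, h1, h2, h3⟩ := xfm_dec b hd ι
    rw [← Matrix.charpoly_map]
    rw [xcp (AlgebraicClosure ℚ_[l]) n k m _ (fun i => R i σ⁻¹) (fun i => (b i).P.map ι) Q h1 h2 h3
      (fun i => (hR i).2 σ⁻¹), Polynomial.map_prod]
    exact Finset.prod_congr rfl fun i _ => hΦ i l hl _ _ ι (R i) (hR i)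
  have hι : ∀ (l : ℕ) [Fact l.Prime], Nonempty (𝓞 L →+* AlgebraicClosure ℚ_[l]) := by
    intro l _
    have : CharZero (AlgebraicClosure ℚ_[l]) :=
      charZero_of_injective_algebraMap (algebraMap ℚ_[l] (AlgebraicClosure ℚ_[l])).injective
    exact ⟨(IsAlgClosed.lift (R := ℚ) (S := L) (M := AlgebraicClosure ℚ_[l])).toRingHom.comp
      (algebraMap (𝓞 L) L)⟩
  -- the product is fixed by all automorphisms
  have hfix : ∀ γ : L →+* L, (∏ i, Φ i).map (RingOfIntegers.mapRingHom γ) = ∏ i, Φ i := by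
    intro γ
    obtain ⟨l, hl, hlp⟩ : ∃ l : ℕ, l.Prime ∧ l ≠ p := by
      by_cases h : p = 2
      · exact ⟨3, Nat.prime_three, by omega⟩
      · exact ⟨2, Nat.prime_two, fun h' => h h'.symm⟩
    have : Fact l.Prime := ⟨hl⟩
    have : CharZero (AlgebraicClosure ℚ_[l]) :=
      charZero_of_injective_algebraMap (algebraMap ℚ_[l] (AlgebraicClosure ℚ_[l])).injective
    obtain ⟨ι⟩ := hι l
    have h1 := key l hlp ι
    have h2 := key l hlp (ι.comp (RingOfIntegers.mapRingHom γ))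
    rw [h1, ← Polynomial.map_map] at h2
    exact (Polynomial.map_injective ι (xfm_inj ι) h2).symm
  obtain ⟨P, hP⟩ := xfm_fix _ hfix
  refine ⟨P, ?_⟩
  intro l _ hl
  obtain ⟨ι⟩ := hι l
  have h1 := key l hl ι
  have hinj : Function.Injective
      ((algebraMap ℚ_[l] (AlgebraicClosure ℚ_[l])).comp (algebraMap ℤ_[l] ℚ_[l])) := by
    rw [RingHom.coe_comp]
    exact (algebraMap ℚ_[l] (AlgebraicClosure ℚ_[l])).injective.comp
      (IsFractionRing.injective ℤ_[l] ℚ_[l])
  apply Polynomial.map_injective _ hinj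
  rw [h1, ← hP, Polynomial.map_map, Polynomial.map_map]
  congr 1
  exact RingHom.ext_int _ _

end REC
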