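import Mathlib
import Pool.Agent.Helper57.REC.StmtsX

/-!
Row XIG: rational idempotents and integral bases.
-/

set_option autoImplicit false

open scoped Classical

namespace REC

/-- left cancellation of a matrix with independent columns -/
theorem xig_cancel {n r m : ℕ} (Q : Matrix (Fin n) (Fin r) ℚ)
    (h : LinearIndependent ℚ Q.col) (X Y : Matrix (Fin r) (Fin m) ℚ) (hXY : Q * X = Q * Y) :
    X = Y := by
  have h1 : Function.Injective Q.mulVec := Matrix.mulVec_injective_iff.mpr h
  ext i j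
  have h2 : Q.mulVec (fun k => X k j) = Q.mulVec (fun k => Y k j) := by
    funext k
    have h3 := congrFun (congrFun hXY k) j
    rw [Matrix.mul_apply, Matrix.mul_apply] at h3
    exact h3
  exact congrFun (h1 h2) i

/-- the integral lattice of an idempotent -/
noncomputable def xigφ {n : ℕ} (e : Matrix (Fin n) (Fin n) ℚ) : (Fin n → ℤ) →ₗ[ℤ] (Fin n → ℚ) where
  toFun z := e.mulVec (fun i => (z i : ℚ))
  map_add' x y := by
    rw [← Matrix.mulVec_add]
    congr 1
    funext i
    exact Int.cast_add _ _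
  map_smul' c x := by
    funext k
    simp only [Matrix.mulVec, dotProduct, Pi.smul_apply, zsmul_eq_mul, RingHom.id_apply,
      smul_eq_mul, Int.cast_mul, Finset.mul_sum]
    refine Finset.sum_congr rfl fun i _ => ?_
    ring

theorem st_XIG : ST_XIG := by
  intro n e he
  obtain ⟨M, hM⟩ : ∃ M : Submodule ℤ (Fin n → ℚ), M = LinearMap.range (xigφ e) := ⟨_, rfl⟩
  have hfin : Module.Finite ℤ M := by
    rw [hM]
    infer_instance
  have hfree : Module.Free ℤ M := inferInstance
  obtain ⟨r, b⟩ : ∃ r : ℕ, Nonempty (Module.Basis (Fin r) ℤ M) :=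
    ⟨_, ⟨Module.finBasis ℤ M⟩⟩
  obtain ⟨b⟩ := b
  have hlz : LinearIndependent ℤ (fun i => (b i : Fin n → ℚ)) :=
    b.linearIndependent.map' M.subtype (Submodule.ker_subtype M)
  have hlq : LinearIndependent ℚ (fun i => (b i : Fin n → ℚ)) :=
    (LinearIndependent.iff_fractionRing ℤ ℚ).mp hlz
  have hmem : ∀ z : Fin n → ℤ, xigφ e z ∈ M := by
    intro z
    rw [hM]
    exact ⟨z, rfl⟩
  have hz : ∀ i, ∃ z : Fin n → ℤ, xigφ e z = (b i : Fin n → ℚ) := by
    intro i
    have h1 : ∀ x : Fin n → ℚ, x ∈ M → ∃ z : Fin n → ℤ, xigφ e z = x := by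
      intro x hx
      rw [hM] at hx
      exact hx
    exact h1 _ (b i).2
  choose z hz using hz
  obtain ⟨Q, hQ⟩ : ∃ Q : Matrix (Fin n) (Fin r) ℚ, Q = Matrix.of fun k i => (b i : Fin n → ℚ) k :=
    ⟨_, rfl⟩
  obtain ⟨P, hP⟩ : ∃ P : Matrix (Fin r) (Fin n) ℤ,
    P = Matrix.of fun i j => b.repr ⟨xigφ e (Pi.single j 1), hmem _⟩ i := ⟨_, rfl⟩
  obtain ⟨C, hC⟩ : ∃ C : Matrix (Fin n) (Fin r) ℤ, C = Matrix.of fun j i => z i j := ⟨_, rfl⟩
  have hcol : LinearIndependent ℚ Q.col := by
    have h1 : Q.col = fun i => (b i : Fin n → ℚ) := by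
      funext i k
      rw [hQ]
      rfl
    rw [h1]
    exact hlq
  have hQP : Q * P.map (Int.castRingHom ℚ) = e := by
    ext k j
    have h1 := b.sum_repr ⟨xigφ e (Pi.single j 1), hmem _⟩
    have h2 := congrArg (fun x : M => (x : Fin n → ℚ) k) h1
    simp only [Submodule.coe_sum, Submodule.coe_smul, Finset.sum_apply, Pi.smul_apply] at h2
    have h3 : xigφ e (Pi.single j 1) k = e k j := by
      show e.mulVec (fun i => ((Pi.single j 1 : Fin n → ℤ) i : ℚ)) k = e k j
      simp only [Matrix.mulVec, dotProduct]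
      rw [Finset.sum_eq_single j]
      · rw [Pi.single_eq_same, Int.cast_one, mul_one]
      · intro i _ hi
        rw [Pi.single_eq_of_ne hi, Int.cast_zero, mul_zero]
      · intro h
        exact absurd (Finset.mem_univ j) h
    rw [← h3, ← h2, Matrix.mul_apply]
    refine Finset.sum_congr rfl fun i _ => ?_
    rw [hQ, hP, Matrix.map_apply, Matrix.of_apply, Matrix.of_apply, zsmul_eq_mul, mul_comm]
    rfl
  have heC : e * C.map (Int.castRingHom ℚ) = Q := by
    ext k i
    rw [hQ, Matrix.of_apply, ← hz i, Matrix.mul_apply, hC]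
    rfl
  refine ⟨r, P, C, Q, ?_, ?_, hQP⟩
  · have h1 : P.map (Int.castRingHom ℚ) * C.map (Int.castRingHom ℚ) = 1 := by
      apply xig_cancel Q hcol
      rw [← Matrix.mul_assoc, hQP, heC, Matrix.mul_one]
    rw [← Matrix.map_mul] at h1
    ext i j
    have h2 := congrFun (congrFun h1 i) j
    rw [Matrix.map_apply, eq_intCast] at h2
    by_cases hij : i = j
    · rw [hij, Matrix.one_apply_eq] at h2 ⊢
      exact_mod_cast h2
    · rw [Matrix.one_apply_ne hij] at h2 ⊢
      exact_mod_cast h2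
  · apply xig_cancel Q hcol
    rw [← Matrix.mul_assoc, hQP, Matrix.mul_one]
    calc e * Q = e * (e * C.map (Int.castRingHom ℚ)) := by rw [heC]
      _ = Q := by rw [← Matrix.mul_assoc, he, heC]

end REC
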