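import Mathlib
import Pool.Agent.Helper57.REC.StmtsX

/-!
Row XSB: the family on a rational part.
-/

set_option autoImplicit false

open scoped Classical
open NumberField Polynomial

namespace REC

open Pool.Agent.Helper13.ZL (Pl q)
open MU

/-- integral matrices mapped twice -/
theorem xsb_map {a b : ℕ} {R S : Type} [Ring R] [Ring S] (f : R →+* S)
    (P : Matrix (Fin a) (Fin b) ℤ) :
    (P.map (Int.castRingHom R)).map f = P.map (Int.castRingHom S) := by
  ext i j
  rw [Matrix.map_apply, Matrix.map_apply, Matrix.map_apply, eq_intCast, eq_intCast, map_intCast]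

/-- cancelling a positive integer -/
theorem xsb_cancel {a b : ℕ} {L : Type} [Field L] [NumberField L] {N : ℕ} (hN : 0 < N)
    (X Y : Matrix (Fin a) (Fin b) (𝓞 L)) (h : (N : 𝓞 L) • X = (N : 𝓞 L) • Y) : X = Y := by
  have hN0 : (N : 𝓞 L) ≠ 0 := by exact_mod_cast hN.ne'
  refine Matrix.ext fun i j => ?_
  have h1 := congrFun (congrFun h i) j
  rw [Matrix.smul_apply, Matrix.smul_apply, smul_eq_mul, smul_eq_mul] at h1
  exact mul_left_cancel₀ hN0 h1

/-- the endomorphism `Q i * P i` commutes with the representation -/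
theorem xsb_comm {n k : ℕ} {L : Type} [Field L] [NumberField L] {m : Fin k → ℕ}
    (b : ∀ i, Blo n (m i) L) (hd : IsDcp b) {G : Type} [Group G] {l : ℕ} [Fact l.Prime]
    (r : G →* Matrix.GeneralLinearGroup (Fin n) ℤ_[l]) {Ω : Type} [Field Ω] [CharZero Ω]
    (ϑ : ℤ_[l] →+* Ω) (ι : 𝓞 L →+* Ω) (R : ∀ i, G →* Matrix (Fin (m i)) (Fin (m i)) Ω)
    (hR : ∀ i, (b i).At r ϑ ι (R i)) (i : Fin k) (g : G) :
    (((b i).Q * (b i).P).map ι) * (r g : Matrix (Fin n) (Fin n) ℤ_[l]).map ϑ =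
      (r g : Matrix (Fin n) (Fin n) ℤ_[l]).map ϑ * (((b i).Q * (b i).P).map ι) := by
  obtain ⟨h0, N, hN, hbN, hsum⟩ := hd
  have hN0 : (N : Ω) ≠ 0 := by exact_mod_cast hN.ne'
  obtain ⟨M, hM⟩ : ∃ M : Matrix (Fin n) (Fin n) Ω,
    M = (r g : Matrix (Fin n) (Fin n) ℤ_[l]).map ϑ := ⟨_, rfl⟩
  have hRM : ∀ j, (b j).P.map ι * M = R j g * (b j).P.map ι := by
    intro j
    rw [hM]
    exact (hR j).2 g
  rw [← hM, Matrix.map_mul]
  have h1 : ∑ j, (b j).Q.map ι * (b j).P.map ι = (N : Ω) • (1 : Matrix (Fin n) (Fin n) Ω) := by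
    have h2 : ∑ j, ((b j).Q * (b j).P).map ι = (∑ j, (b j).Q * (b j).P).map ι := by
      have h3 := map_sum (ι.mapMatrix (m := Fin n)) (fun i => (b i).Q * (b i).P) Finset.univ
      simp only [RingHom.mapMatrix_apply] at h3
      exact h3.symm
    simp only [← Matrix.map_mul]
    rw [h2, hsum, Matrix.map_smul' _ _ _ (map_mul _), map_natCast,
      Matrix.map_one _ (map_zero _) (map_one _)]
  have h2 : ∀ j, (b j).P.map ι * (b i).Q.map ι =
      if j = i then (N : Ω) • (1 : Matrix (Fin (m j)) (Fin (m j)) Ω) *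
        ((b j).P.map ι * (b i).Q.map ι) * (1 : Matrix (Fin (m i)) (Fin (m i)) Ω) *
          ((N : Ω)⁻¹ • (1 : Matrix (Fin (m i)) (Fin (m i)) Ω)) else 0 := by
    intro j
    by_cases hj : j = i
    · rw [if_pos hj, Matrix.smul_mul, Matrix.one_mul, Matrix.mul_one, Matrix.mul_smul,
        Matrix.mul_one, smul_smul, inv_mul_cancel₀ hN0, one_smul]
    · rw [if_neg hj, ← Matrix.map_mul, h0 j i hj, Matrix.map_zero _ (map_zero _)]
  have h3 : (b i).P.map ι * (b i).Q.map ι = (N : Ω) • (1 : Matrix (Fin (m i)) (Fin (m i)) Ω) := by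
    rw [← Matrix.map_mul, (b i).PQ, hbN i, Matrix.map_smul' _ _ _ (map_mul _), map_natCast,
      Matrix.map_one _ (map_zero _) (map_one _)]
  have h4 : (N : Ω) • (M * ((b i).Q.map ι * (b i).P.map ι)) =
      (N : Ω) • ((b i).Q.map ι * (b i).P.map ι * M) := by
    calc (N : Ω) • (M * ((b i).Q.map ι * (b i).P.map ι))
        = (∑ j, (b j).Q.map ι * (b j).P.map ι) * (M * ((b i).Q.map ι * (b i).P.map ι)) := by
          rw [h1, Matrix.smul_mul, Matrix.one_mul]
      _ = ∑ j, (b j).Q.map ι * (R j g) * ((b j).P.map ι * (b i).Q.map ι) * (b i).P.map ι := by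
          rw [Finset.sum_mul]
          refine Finset.sum_congr rfl fun j _ => ?_
          calc (b j).Q.map ι * (b j).P.map ι * (M * ((b i).Q.map ι * (b i).P.map ι))
              = (b j).Q.map ι * ((b j).P.map ι * M) * ((b i).Q.map ι * (b i).P.map ι) := by
                simp only [Matrix.mul_assoc]
            _ = _ := by
                rw [hRM j]
                simp only [Matrix.mul_assoc]
      _ = (b i).Q.map ι * (R i g) * ((b i).P.map ι * (b i).Q.map ι) * (b i).P.map ι := by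
          refine Finset.sum_eq_single i ?_ ?_
          · intro j _ hj
            rw [h2 j, if_neg hj, Matrix.mul_zero, Matrix.zero_mul]
          · intro h
            exact absurd (Finset.mem_univ i) h
      _ = (N : Ω) • ((b i).Q.map ι * ((R i g) * (b i).P.map ι)) := by
          rw [h3, Matrix.mul_smul, Matrix.mul_one, Matrix.smul_mul, Matrix.mul_assoc]
      _ = (N : Ω) • ((b i).Q.map ι * (b i).P.map ι * M) := by
          rw [← hRM i, Matrix.mul_assoc]
  exact (smul_right_injective _ hN0 h4).symm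

theorem st_XSB : ST_XSB := by
  intro F L _ _ _ _ n k m b ρ hc hd hb B e hRt r P C Q hPC hPQ hQP k' φ hφ hBφ
  obtain ⟨N, hN, hbN, hE⟩ := hRt
  obtain ⟨h0, N', hN', hbN', hsum'⟩ := id hd
  obtain ⟨E, hEdef⟩ : ∃ E : Matrix (Fin n) (Fin n) (𝓞 L), E = ∑ i ∈ B, (b i).Q * (b i).P :=
    ⟨_, rfl⟩
  rw [← hEdef] at hE
  obtain ⟨Co, hCo⟩ : ∃ Co : Matrix (Fin n) (Fin r) (𝓞 L), Co = C.map (Int.castRingHom (𝓞 L)) :=
    ⟨_, rfl⟩
  obtain ⟨Po, hPo⟩ : ∃ Po : Matrix (Fin r) (Fin n) (𝓞 L), Po = P.map (Int.castRingHom (𝓞 L)) :=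
    ⟨_, rfl⟩
  have hinjL : Function.Injective (algebraMap (𝓞 L) L) := RingOfIntegers.coe_injective
  have hmapinj : ∀ (a c : ℕ) (X Y : Matrix (Fin a) (Fin c) (𝓞 L)),
      X.map (algebraMap (𝓞 L) L) = Y.map (algebraMap (𝓞 L) L) → X = Y := by
    intro a c X Y h
    refine Matrix.ext fun i j => ?_
    exact hinjL (congrFun (congrFun h i) j)
  -- facts over the rational numbers
  have q1 : P.map (Int.castRingHom ℚ) * C.map (Int.castRingHom ℚ) = 1 := by
    rw [← Matrix.map_mul, hPC, Matrix.map_one _ (map_zero _) (map_one _)]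
  have q2 : e * (C.map (Int.castRingHom ℚ) * P.map (Int.castRingHom ℚ)) = e := by
    rw [← hQP]
    calc Q * P.map (Int.castRingHom ℚ) * (C.map (Int.castRingHom ℚ) * P.map (Int.castRingHom ℚ))
        = Q * (P.map (Int.castRingHom ℚ) * C.map (Int.castRingHom ℚ)) *
          P.map (Int.castRingHom ℚ) := by simp only [Matrix.mul_assoc]
      _ = _ := by rw [q1, Matrix.mul_one]
  have q3 : P.map (Int.castRingHom ℚ) * e = P.map (Int.castRingHom ℚ) := by
    rw [← hQP, ← Matrix.mul_assoc, hPQ, Matrix.one_mul]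
  have q4 : P.map (Int.castRingHom ℚ) * e * C.map (Int.castRingHom ℚ) = 1 := by
    rw [q3, q1]
  -- facts over the integers of `L`
  have o1 : ∀ i ∈ B, (b i).P * E = (N : 𝓞 L) • (b i).P := by
    intro i hi
    rw [hEdef, Matrix.mul_sum, Finset.sum_eq_single i]
    · rw [← Matrix.mul_assoc, (b i).PQ, hbN i, Matrix.smul_mul, Matrix.one_mul]
    · intro j _ hj
      rw [← Matrix.mul_assoc, h0 i j (Ne.symm hj), Matrix.zero_mul]
    · intro h
      exact absurd hi h
  have o2 : E * (Co * Po) = E := by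
    apply hmapinj
    rw [Matrix.map_mul, Matrix.map_mul, ← hE, hCo, hPo, xsb_map, xsb_map]
    have h1 := congrArg (fun X : Matrix (Fin n) (Fin n) ℚ => X.map (algebraMap ℚ L)) q2
    simp only [Matrix.map_mul, xsb_map] at h1
    rw [Matrix.smul_mul, h1]
  have o3 : ∀ i ∈ B, (b i).P * (Co * Po) = (b i).P := by
    intro i hi
    apply xsb_cancel hN
    rw [← Matrix.smul_mul, ← o1 i hi, Matrix.mul_assoc, o2]
  have o4 : Po * E * Co = (N : 𝓞 L) • (1 : Matrix (Fin r) (Fin r) (𝓞 L)) := by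
    apply hmapinj
    rw [Matrix.map_mul, Matrix.map_mul, ← hE, hCo, hPo, xsb_map, xsb_map]
    have h1 := congrArg (fun X : Matrix (Fin r) (Fin r) ℚ => X.map (algebraMap ℚ L)) q4
    simp only [Matrix.map_mul, xsb_map] at h1
    rw [Matrix.mul_smul, Matrix.smul_mul, h1, Matrix.map_smul' _ _ _ (map_mul _), map_natCast,
      Matrix.map_one _ (map_zero _) (map_one _), Matrix.map_one _ (map_zero _) (map_one _)]
  -- the representations
  have key : ∀ (l : ℕ) [Fact l.Prime] (g : Gal F),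
      P.map (Int.castRingHom ℤ_[l]) * (ρ l g : Matrix (Fin n) (Fin n) ℤ_[l]) *
        (C.map (Int.castRingHom ℤ_[l]) * P.map (Int.castRingHom ℤ_[l])) =
      P.map (Int.castRingHom ℤ_[l]) * (ρ l g : Matrix (Fin n) (Fin n) ℤ_[l]) := by
    intro l _ g
    have hc0 : CharZero (AlgebraicClosure ℚ_[l]) :=
      charZero_of_injective_algebraMap (algebraMap ℚ_[l] (AlgebraicClosure ℚ_[l])).injective
    obtain ⟨f⟩ : Nonempty (L →+* AlgebraicClosure ℚ_[l]) :=
      ⟨(IsAlgClosed.lift (R := ℚ) (S := L) (M := AlgebraicClosure ℚ_[l])).toRingHom⟩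
    obtain ⟨ϑ, hϑ⟩ : ∃ ϑ : ℤ_[l] →+* AlgebraicClosure ℚ_[l],
      ϑ = (algebraMap ℚ_[l] (AlgebraicClosure ℚ_[l])).comp (algebraMap ℤ_[l] ℚ_[l]) := ⟨_, rfl⟩
    have hϑi : Function.Injective ϑ := by
      rw [hϑ, RingHom.coe_comp]
      exact (algebraMap ℚ_[l] (AlgebraicClosure ℚ_[l])).injective.comp
        (IsFractionRing.injective ℤ_[l] ℚ_[l])
    obtain ⟨ι, hι⟩ : ∃ ι : 𝓞 L →+* AlgebraicClosure ℚ_[l], ι = f.comp (algebraMap (𝓞 L) L) :=
      ⟨_, rfl⟩
    have hNi : ∀ i, ((b i).N : AlgebraicClosure ℚ_[l]) ≠ 0 := by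
      intro i
      exact_mod_cast (b i).pos.ne'
    have hR := fun i => hb i l (AlgebraicClosure ℚ_[l]) ϑ ι (hNi i)
    choose R hR using hR
    obtain ⟨M, hM⟩ : ∃ M : Matrix (Fin n) (Fin n) (AlgebraicClosure ℚ_[l]),
      M = (ρ l g : Matrix (Fin n) (Fin n) ℤ_[l]).map ϑ := ⟨_, rfl⟩
    obtain ⟨e', he'⟩ : ∃ e' : Matrix (Fin n) (Fin n) (AlgebraicClosure ℚ_[l]),
      e' = e.map (algebraMap ℚ (AlgebraicClosure ℚ_[l])) := ⟨_, rfl⟩
    have hEe : E.map ι = (N : AlgebraicClosure ℚ_[l]) • e' := by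
      have h1 : E.map ι = (E.map (algebraMap (𝓞 L) L)).map f := by
        rw [hι, Matrix.map_map]
        rfl
      rw [h1, ← hE, Matrix.map_smul' _ _ _ (map_mul _), map_natCast, Matrix.map_map, he']
      congr 2
      funext x
      exact congrFun (congrArg DFunLike.coe
        (RingHom.ext_rat (f.comp (algebraMap ℚ L)) (algebraMap ℚ (AlgebraicClosure ℚ_[l])))) x
    have hEM : E.map ι * M = M * E.map ι := by
      have h1 : E.map ι = ∑ i ∈ B, ((b i).Q * (b i).P).map ι := by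
        rw [hEdef]
        have h3 := map_sum (ι.mapMatrix (m := Fin n)) (fun i => (b i).Q * (b i).P) B
        simp only [RingHom.mapMatrix_apply] at h3
        exact h3
      rw [h1, Finset.sum_mul, Finset.mul_sum]
      refine Finset.sum_congr rfl fun i _ => ?_
      rw [hM]
      exact xsb_comm b hd (ρ l) ϑ ι R hR i g
    have hN0 : (N : AlgebraicClosure ℚ_[l]) ≠ 0 := by exact_mod_cast hN.ne'
    have heM : e' * M = M * e' := by
      rw [hEe, Matrix.smul_mul, Matrix.mul_smul] at hEM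
      exact smul_right_injective _ hN0 hEM
    obtain ⟨p, hp⟩ : ∃ p : Matrix (Fin r) (Fin n) (AlgebraicClosure ℚ_[l]),
      p = P.map (Int.castRingHom _) := ⟨_, rfl⟩
    obtain ⟨c, hcd⟩ : ∃ c : Matrix (Fin n) (Fin r) (AlgebraicClosure ℚ_[l]),
      c = C.map (Int.castRingHom _) := ⟨_, rfl⟩
    have w2 : e' * (c * p) = e' := by
      have h1 := congrArg (fun X : Matrix (Fin n) (Fin n) ℚ =>
        X.map (algebraMap ℚ (AlgebraicClosure ℚ_[l]))) q2
      simp only [Matrix.map_mul, xsb_map] at h1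
      rw [he', hp, hcd]
      exact h1
    have w3 : p * e' = p := by
      have h1 := congrArg (fun X : Matrix (Fin r) (Fin n) ℚ =>
        X.map (algebraMap ℚ (AlgebraicClosure ℚ_[l]))) q3
      simp only [Matrix.map_mul, xsb_map] at h1
      rw [he', hp]
      exact h1
    have w4 : p * M * (c * p) = p * M := by
      calc p * M * (c * p) = p * e' * M * (c * p) := by rw [w3]
        _ = p * (e' * M) * (c * p) := by rw [Matrix.mul_assoc p e' M]
        _ = p * M * (e' * (c * p)) := by rw [heM]; simp only [Matrix.mul_assoc]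
        _ = p * (M * e') := by rw [w2, Matrix.mul_assoc]
        _ = p * M := by rw [← heM, ← Matrix.mul_assoc, w3]
    have h5 : ∀ X Y : Matrix (Fin r) (Fin n) ℤ_[l], X.map ϑ = Y.map ϑ → X = Y := by
      intro X Y h
      refine Matrix.ext fun i j => ?_
      exact hϑi (congrFun (congrFun h i) j)
    apply h5
    rw [Matrix.map_mul, Matrix.map_mul, Matrix.map_mul, xsb_map, xsb_map, ← hM, ← hp, ← hcd]
    exact w4
  have pc : ∀ (l : ℕ) [Fact l.Prime],
      P.map (Int.castRingHom ℤ_[l]) * C.map (Int.castRingHom ℤ_[l]) = 1 := by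
    intro l _
    rw [← Matrix.map_mul, hPC, Matrix.map_one _ (map_zero _) (map_one _)]
  obtain ⟨ρ₀, hρ₀⟩ : ∃ ρ₀ : ∀ (l : ℕ) [Fact l.Prime], Gal F →* Matrix (Fin r) (Fin r) ℤ_[l],
      ∀ (l : ℕ) [Fact l.Prime] (g : Gal F), ρ₀ l g = P.map (Int.castRingHom ℤ_[l]) *
        (ρ l g : Matrix (Fin n) (Fin n) ℤ_[l]) * C.map (Int.castRingHom ℤ_[l]) := by
    refine ⟨fun l _ =>
      { toFun := fun g => P.map (Int.castRingHom ℤ_[l]) *
          (ρ l g : Matrix (Fin n) (Fin n) ℤ_[l]) * C.map (Int.castRingHom ℤ_[l])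
        map_one' := ?_
        map_mul' := ?_ }, fun l _ g => rfl⟩
    · rw [map_one, Units.val_one, Matrix.mul_one, pc]
    · intro g h
      rw [map_mul, Units.val_mul]
      calc _ = (P.map (Int.castRingHom ℤ_[l]) * (ρ l g : Matrix (Fin n) (Fin n) ℤ_[l])) *
            (ρ l h : Matrix (Fin n) (Fin n) ℤ_[l]) * C.map (Int.castRingHom ℤ_[l]) := by
            simp only [Matrix.mul_assoc]
        _ = (P.map (Int.castRingHom ℤ_[l]) * (ρ l g : Matrix (Fin n) (Fin n) ℤ_[l]) *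
            (C.map (Int.castRingHom ℤ_[l]) * P.map (Int.castRingHom ℤ_[l]))) *
            (ρ l h : Matrix (Fin n) (Fin n) ℤ_[l]) * C.map (Int.castRingHom ℤ_[l]) := by
            rw [key l g]
        _ = _ := by
            simp only [Matrix.mul_assoc]
  obtain ⟨ρ', hρ'⟩ : ∃ ρ' : Fml F r, ∀ (l : ℕ) [Fact l.Prime] (g : Gal F),
      (ρ' l g : Matrix (Fin r) (Fin r) ℤ_[l]) = ρ₀ l g :=
    ⟨fun l _ => (ρ₀ l).toHomUnits, fun l _ g => rfl⟩
  have hval : ∀ (l : ℕ) [Fact l.Prime] (g : Gal F),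
      (ρ' l g : Matrix (Fin r) (Fin r) ℤ_[l]) = P.map (Int.castRingHom ℤ_[l]) *
        (ρ l g : Matrix (Fin n) (Fin n) ℤ_[l]) * C.map (Int.castRingHom ℤ_[l]) := by
    intro l _ g
    rw [hρ' l g]
    exact hρ₀ l g
  obtain ⟨b', hb'⟩ : ∃ b' : ∀ i, Blo r (m (φ i)) L, ∀ i, (b' i).N = (b (φ i)).N ∧
      (b' i).P = (b (φ i)).P * Co ∧ (b' i).Q = Po * (b (φ i)).Q := by
    refine ⟨fun i =>
      { N := (b (φ i)).N
        P := (b (φ i)).P * Co
        Q := Po * (b (φ i)).Q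
        pos := (b (φ i)).pos
        PQ := ?_ }, fun i => ⟨rfl, rfl, rfl⟩⟩
    calc (b (φ i)).P * Co * (Po * (b (φ i)).Q) = (b (φ i)).P * (Co * Po) * (b (φ i)).Q := by
          simp only [Matrix.mul_assoc]
      _ = _ := by rw [o3 _ ((hBφ _).mpr ⟨i, rfl⟩), (b (φ i)).PQ]
  have hBi : B = Finset.univ.image φ := by
    ext i
    rw [hBφ i, Finset.mem_image]
    constructor
    · rintro ⟨j, hj⟩
      exact ⟨j, Finset.mem_univ _, hj⟩
    · rintro ⟨j, _, hj⟩
      exact ⟨j, hj⟩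
  refine ⟨ρ', b', ⟨?_, N, hN, ?_, ?_⟩, ?_, ?_, ?_⟩
  · intro i j hij
    rw [(hb' i).2.1, (hb' j).2.2]
    calc (b (φ i)).P * Co * (Po * (b (φ j)).Q) = (b (φ i)).P * (Co * Po) * (b (φ j)).Q := by
          simp only [Matrix.mul_assoc]
      _ = 0 := by
          rw [o3 _ ((hBφ _).mpr ⟨i, rfl⟩)]
          exact h0 _ _ (fun h => hij (hφ h))
  · intro i
    rw [(hb' i).1, hbN]
  · rw [← o4, hEdef, hBi, Finset.sum_image (fun x _ y _ h => hφ h), Matrix.mul_sum,
      Matrix.sum_mul]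
    refine Finset.sum_congr rfl fun i _ => ?_
    rw [(hb' i).2.1, (hb' i).2.2]
    simp only [Matrix.mul_assoc]
  · intro l _
    have h1 : Continuous fun g : Gal F => (ρ' l g : Matrix (Fin r) (Fin r) ℤ_[l]) := by
      have h2 : (fun g : Gal F => (ρ' l g : Matrix (Fin r) (Fin r) ℤ_[l])) = fun g =>
          P.map (Int.castRingHom ℤ_[l]) * (ρ l g : Matrix (Fin n) (Fin n) ℤ_[l]) *
            C.map (Int.castRingHom ℤ_[l]) := by
        funext g
        exact hval l g
      rw [h2]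
      have h3 : Continuous fun g : Gal F => (ρ l g : Matrix (Fin n) (Fin n) ℤ_[l]) :=
        Units.continuous_val.comp (hc l)
      exact (continuous_const.matrix_mul h3).matrix_mul continuous_const
    rw [Units.continuous_iff]
    refine ⟨h1, ?_⟩
    have h2 : (fun g : Gal F => (((ρ' l g)⁻¹ : Matrix.GeneralLinearGroup (Fin r) ℤ_[l]) :
        Matrix (Fin r) (Fin r) ℤ_[l])) = fun g => (ρ' l g⁻¹ : Matrix (Fin r) (Fin r) ℤ_[l]) := by
      funext g
      rw [map_inv]
    rw [h2]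
    exact h1.comp continuous_inv
  · intro l _ g
    rw [hval, Matrix.mul_assoc _ (C.map (Int.castRingHom ℤ_[l])), key]
  · intro i l _ Ω _ ϑ ι R
    obtain ⟨A, hA⟩ : ∃ A : Matrix (Fin (m (φ i))) (Fin n) Ω, A = (b (φ i)).P.map ι := ⟨_, rfl⟩
    obtain ⟨p, hp⟩ : ∃ p : Matrix (Fin r) (Fin n) Ω, p = P.map (Int.castRingHom _) := ⟨_, rfl⟩
    obtain ⟨c, hcd⟩ : ∃ c : Matrix (Fin n) (Fin r) Ω, c = C.map (Int.castRingHom _) := ⟨_, rfl⟩
    have hb'P : (b' i).P.map ι = A * c := by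
      rw [(hb' i).2.1, Matrix.map_mul, hCo, xsb_map, hA, hcd]
    have hAcp : A * (c * p) = A := by
      have h1 := congrArg (fun X : Matrix (Fin (m (φ i))) (Fin n) (𝓞 L) => X.map ι)
        (o3 _ ((hBφ _).mpr ⟨i, rfl⟩))
      simp only [Matrix.map_mul] at h1
      rw [hCo, hPo, xsb_map, xsb_map] at h1
      rw [hA, hp, hcd]
      exact h1
    have hpM : ∀ g, p * (ρ l g : Matrix (Fin n) (Fin n) ℤ_[l]).map ϑ * (c * p) =
        p * (ρ l g : Matrix (Fin n) (Fin n) ℤ_[l]).map ϑ := by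
      intro g
      have h1 := congrArg (fun X : Matrix (Fin r) (Fin n) ℤ_[l] => X.map ϑ) (key l g)
      simp only [Matrix.map_mul, xsb_map] at h1
      rw [hp, hcd]
      exact h1
    have hρM : ∀ g, (ρ' l g : Matrix (Fin r) (Fin r) ℤ_[l]).map ϑ =
        p * (ρ l g : Matrix (Fin n) (Fin n) ℤ_[l]).map ϑ * c := by
      intro g
      rw [hval, Matrix.map_mul, Matrix.map_mul, xsb_map, xsb_map, hp, hcd]
    unfold Blo.At
    rw [(hb' i).1, hb'P, ← hA]
    refine and_congr Iff.rfl ?_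
    constructor
    · intro h g
      have h1 := h g
      rw [hρM g] at h1
      calc A * (ρ l g : Matrix (Fin n) (Fin n) ℤ_[l]).map ϑ
          = A * (c * p) * (ρ l g : Matrix (Fin n) (Fin n) ℤ_[l]).map ϑ := by rw [hAcp]
        _ = A * c * (p * (ρ l g : Matrix (Fin n) (Fin n) ℤ_[l]).map ϑ) := by
            simp only [Matrix.mul_assoc]
        _ = A * c * (p * (ρ l g : Matrix (Fin n) (Fin n) ℤ_[l]).map ϑ * (c * p)) := by rw [hpM g]
        _ = A * c * (p * (ρ l g : Matrix (Fin n) (Fin n) ℤ_[l]).map ϑ * c) * p := by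
            simp only [Matrix.mul_assoc]
        _ = R g * (A * c) * p := by rw [h1]
        _ = R g * A := by rw [Matrix.mul_assoc, Matrix.mul_assoc, hAcp]
    · intro h g
      rw [hρM g]
      calc A * c * (p * (ρ l g : Matrix (Fin n) (Fin n) ℤ_[l]).map ϑ * c)
          = A * (c * p) * (ρ l g : Matrix (Fin n) (Fin n) ℤ_[l]).map ϑ * c := by
            simp only [Matrix.mul_assoc]
        _ = R g * (A * c) := by rw [hAcp, h g, Matrix.mul_assoc]

end REC
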